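import Mathlib
import Pool.Agent.TH170.FT.TateDefs
import Pool.Agent.K6.H79.MU.Norm

/-!
# Tate classes on the products of the powers of an abelian variety and another variety
-/

set_option autoImplicit false

namespace Pool.Agent.K6.H79.TX

open Polynomial Pool.Agent.K6.H79.MU NumberField

/-- The family `π` of elements of the fields `K i` has full angle rank: the only multiplicative
relations between the complex conjugates of the numbers `π i` are those in which complex conjugate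
numbers have the same exponents. -/
def FullAngleRank {I : Type} [Fintype I] {K : I → Type} [∀ i, Field (K i)]
    [∀ i, NumberField (K i)] (π : ∀ i, K i) : Prop :=
  ∀ k : (Σ i, (K i →+* ℂ)) → ℤ, ∏ x, (x.2 (π x.1)) ^ k x = 1 →
    ∀ i (φ : K i →+* ℂ), k ⟨i, φ⟩ = k ⟨i, ComplexEmbedding.conjugate φ⟩

/-- A class in `H ^ i(A ^ n) ⊗ H`, that is an alternating form on `V ^ n` with values in `H`, is fixed
by `s`, after `r` Tate twists. Here `V` is the Tate module of `A`, `H` a cohomology group of `X`, and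
`χ` the cyclotomic character. -/
def FixedCls {k V H Γ κ : Type} [Field k] [AddCommGroup V] [Module k V] [AddCommGroup H]
    [Module k H] [Group Γ] (ρ : Representation k Γ V) (χ : Γ →* k) (σ : Representation k Γ H)
    {n : ℕ} (r : ℕ) (f : (Fin n → V) [⋀^κ]→ₗ[k] H) (s : Γ) : Prop :=
  ∀ v : κ → Fin n → V, f (fun l i => ρ s (v l i)) = χ s ^ r • σ s (f v)

/-- A Tate class in `H ^ i(A ^ n) ⊗ H (r)`: it is fixed by a subgroup of finite index. -/
def IsTateIn {k V H Γ κ : Type} [Field k] [AddCommGroup V] [Module k V] [AddCommGroup H]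
    [Module k H] [Group Γ] (ρ : Representation k Γ V) (χ : Γ →* k) (σ : Representation k Γ H)
    {n : ℕ} (r : ℕ) (f : (Fin n → V) [⋀^κ]→ₗ[k] H) : Prop :=
  ∃ Δ : Subgroup Γ, Δ.FiniteIndex ∧ ∀ s ∈ Δ, FixedCls ρ χ σ r f s

/-- A Tate class in `H (r)`. -/
def IsTateVector {k H Γ : Type} [Field k] [AddCommGroup H] [Module k H] [Group Γ] (χ : Γ →* k)
    (σ : Representation k Γ H) (r : ℕ) (z : H) : Prop :=
  ∃ Δ : Subgroup Γ, Δ.FiniteIndex ∧ ∀ s ∈ Δ, χ s ^ r • σ s z = z

section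

variable {ℓ : ℕ} [Fact ℓ.Prime] {V Γ : Type} [AddCommGroup V] [Module ℚ_[ℓ] V] [Group Γ]
  {H : ℕ → Type} [∀ j, AddCommGroup (H j)] [∀ j, Module ℚ_[ℓ] (H j)]

/-- The conjecture of Tate for a variety `X` with the cohomology groups `H j`, where `CX r` is the set
of the classes of the algebraic cycles of codimension `r`. -/
def TateFor (χ : Γ →* ℚ_[ℓ]) (σ : ∀ j, Representation ℚ_[ℓ] Γ (H j))
    (CX : ∀ r : ℕ, Set (H (2 * r))) : Prop :=
  ∀ (r : ℕ) (z : H (2 * r)), IsTateVector χ (σ (2 * r)) r z → z ∈ Submodule.span ℚ_[ℓ] (CX r)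

/-- The conjecture of Tate for `A ^ n × X`. By the formula of Künneth its cohomology of degree `2 r` is the
direct sum of the groups `H ^ i(A ^ n) ⊗ H ^ j(X)`, `i + j = 2 r`; the set `C i j` consists of the
components of the classes of algebraic cycles (they are algebraic, up to rational factors). -/
def TateForProduct (ρ : Representation ℚ_[ℓ] Γ V) (χ : Γ →* ℚ_[ℓ])
    (σ : ∀ j, Representation ℚ_[ℓ] Γ (H j)) (n : ℕ)
    (C : ∀ i j : ℕ, Set ((Fin n → V) [⋀^Fin i]→ₗ[ℚ_[ℓ]] H j)) : Prop :=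
  ∀ i j r : ℕ, i + j = 2 * r → ∀ f : (Fin n → V) [⋀^Fin i]→ₗ[ℚ_[ℓ]] H j,
    IsTateIn ρ χ (σ j) r f → f ∈ Submodule.span ℚ_[ℓ] (C i j)

/-- The Frobenius element `γ` (at a place with the residue field of order `q`) acts on the cohomology of
`X` with rational characteristic polynomials (of the geometric Frobenius `γ⁻¹`), all whose complex
roots are unrelated to the polynomial `P`. -/
def UnrelatedAt [∀ j, FiniteDimensional ℚ_[ℓ] (H j)]
    (σ : ∀ j, Representation ℚ_[ℓ] Γ (H j)) (γ : Γ) (P : ℚ[X]) : Prop :=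
  ∀ j, ∃ Q : ℚ[X], LinearMap.charpoly (σ j γ⁻¹) = Q.map (algebraMap ℚ ℚ_[ℓ]) ∧
    ∀ β : ℂ, aeval β Q = 0 → Unrelated P β

/-- The classes of the algebraic cycles of codimension `m` on `A ^ n` (`CA n m`), of codimension `r` on
`X` (`CX r`), and the components of the classes of algebraic cycles on `A ^ n × X` (`C n i j`): the
product of two cycles is a cycle (for any numbering of the `2 m` variables, as the classes only change
their signs), and cycles can be restricted to `{0} × X`. -/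
structure IsCyclesOnProduct (CA : ∀ n m : ℕ, Set ((Fin n → V) [⋀^Fin m × Fin 2]→ₗ[ℚ_[ℓ]] ℚ_[ℓ]))
    (CX : ∀ r : ℕ, Set (H (2 * r)))
    (C : ∀ n i j : ℕ, Set ((Fin n → V) [⋀^Fin i]→ₗ[ℚ_[ℓ]] H j)) : Prop where
  product : ∀ n m r : ℕ, ∀ g ∈ CA n m, ∀ z ∈ CX r, ∀ (e : Fin m × Fin 2 ≃ Fin (2 * m))
    (f : (Fin n → V) [⋀^Fin (2 * m)]→ₗ[ℚ_[ℓ]] H (2 * r)),
    (∀ v, f v = g (fun l => v (e l)) • z) → f ∈ C n (2 * m) (2 * r)
  restriction : ∀ n r : ℕ, ∀ f ∈ C n 0 (2 * r), f 0 ∈ Submodule.span ℚ_[ℓ] (CX r)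

end

end Pool.Agent.K6.H79.TX
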