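import Mathlib
import Pool.Agent.K6.H79.TX.Defs
import Pool.Agent.Y1.CT.Kun
import Pool.Agent.TH170.GH.Sharp

/-!
# Relations between the Frobenius eigenvalues of an abelian variety of full angle rank and unrelated
numbers
-/

set_option autoImplicit false
set_option linter.unusedSectionVars false

namespace Pool.Agent.K6.H79.TX

open NumberField Module Polynomial Pool.Agent.K6.H79.MU Pool.Agent.Y1.CT Pool.Agent.W484.HS

variable {I : Type} [Fintype I] {K : I → Type} [∀ i, Field (K i)] [∀ i, NumberField (K i)]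

/-- The complex conjugate of an embedding. -/
noncomputable def cj (x : Σ i, (K i →+* ℂ)) : Σ i, (K i →+* ℂ) :=
  ⟨x.1, ComplexEmbedding.conjugate x.2⟩

theorem cj_cj (x : Σ i, (K i →+* ℂ)) : cj (cj x) = x := by
  obtain ⟨i, φ⟩ := x
  exact congrArg (Sigma.mk i) (Pool.Agent.TH170.GH.conj_conj φ)

/-- The list of embeddings for which the product of the values is a root of a power of `q` consists of
complex conjugate pairs. -/
theorem count_cj {π : ∀ i, K i} (hfull : FullAngleRank π) {q : ℕ} (hq : 0 < q)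
    (hw : ∀ x : Σ i, (K i →+* ℂ), x.2 (π x.1) * (starRingEnd ℂ) (x.2 (π x.1)) = q)
    [DecidableEq (Σ i, (K i →+* ℂ))] (l : List (Σ i, (K i →+* ℂ))) {M : ℕ} (hM : 0 < M)
    (h : (l.map fun x => x.2 (π x.1)).prod ^ (2 * M) = (q : ℂ) ^ (l.length * M))
    (x : Σ i, (K i →+* ℂ)) : l.count x = l.count (cj x) := by
  have hqC : (q : ℂ) ≠ 0 := by exact_mod_cast hq.ne'
  have hv : ∀ x : Σ i, (K i →+* ℂ), x.2 (π x.1) ≠ 0 := by
    intro x h0
    have := hw x
    rw [h0, zero_mul] at this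
    exact hqC this.symm
  have hcj : ∀ x : Σ i, (K i →+* ℂ), (cj x).2 (π (cj x).1) = (starRingEnd ℂ) (x.2 (π x.1)) :=
    fun x => rfl
  let cjE : (Σ i, (K i →+* ℂ)) ≃ (Σ i, (K i →+* ℂ)) := ⟨cj, cj, cj_cj, cj_cj⟩
  have h1 : ∀ l : List (Σ i, (K i →+* ℂ)),
      (l.map fun x => x.2 (π x.1)).prod = ∏ x, (x.2 (π x.1)) ^ l.count x := by
    intro l
    rw [Finset.prod_list_map_count]
    refine Finset.prod_subset (Finset.subset_univ _) fun x _ hx => ?_
    rw [List.count_eq_zero_of_not_mem (fun hx' => hx (List.mem_toFinset.2 hx')), pow_zero]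
  have h2 : ∀ l : List (Σ i, (K i →+* ℂ)),
      (l.map fun x => (cj x).2 (π (cj x).1)).prod = ∏ x, (x.2 (π x.1)) ^ l.count (cj x) := by
    intro l
    rw [Finset.prod_list_map_count]
    have h3 : ∏ x ∈ l.toFinset, ((cj x).2 (π (cj x).1)) ^ l.count x =
        ∏ x, ((cj x).2 (π (cj x).1)) ^ l.count x := by
      refine Finset.prod_subset (Finset.subset_univ _) fun x _ hx => ?_
      rw [List.count_eq_zero_of_not_mem (fun hx' => hx (List.mem_toFinset.2 hx')), pow_zero]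
    rw [h3]
    refine Fintype.prod_equiv cjE _ _ fun x => ?_
    change _ = ((cj x).2 (π (cj x).1)) ^ l.count (cj (cj x))
    rw [cj_cj]
  have h3 : ∀ l : List (Σ i, (K i →+* ℂ)), (l.map fun x => x.2 (π x.1)).prod *
      (l.map fun x => (cj x).2 (π (cj x).1)).prod = (q : ℂ) ^ l.length := by
    intro l
    induction l with
    | nil => simp
    | cons a l ih =>
      rw [List.map_cons, List.prod_cons, List.map_cons, List.prod_cons, List.length_cons, pow_succ',
        ← ih, ← hw a, hcj]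
      ring
  set A := ∏ x, (x.2 (π x.1)) ^ l.count x with hA
  set B := ∏ x, (x.2 (π x.1)) ^ l.count (cj x) with hB
  have hA0 : A ≠ 0 := Finset.prod_ne_zero_iff.2 fun x _ => pow_ne_zero _ (hv x)
  have h4 : A ^ M = B ^ M := by
    have h5 : A ^ (2 * M) = (A * B) ^ M := by
      rw [hA, hB, ← h1, h, ← h2, h3, ← pow_mul]
    have h6 : A ^ M * A ^ M = A ^ M * B ^ M := by
      rw [← pow_add, ← two_mul, h5, mul_pow]
    exact mul_left_cancel₀ (pow_ne_zero _ hA0) h6
  let k : (Σ i, (K i →+* ℂ)) → ℤ := fun x => M * ((l.count x : ℤ) - l.count (cj x))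
  have h5 : ∏ x, (x.2 (π x.1)) ^ k x = 1 := by
    have h6 : ∀ x : Σ i, (K i →+* ℂ), (x.2 (π x.1)) ^ k x =
        ((x.2 (π x.1)) ^ l.count x) ^ M / ((x.2 (π x.1)) ^ l.count (cj x)) ^ M := by
      intro x
      rw [eq_div_iff (pow_ne_zero _ (pow_ne_zero _ (hv x))), ← pow_mul, ← pow_mul,
        ← zpow_natCast, ← zpow_natCast, ← zpow_add₀ (hv x)]
      congr 1
      simp only [k]
      push_cast
      ring
    rw [Finset.prod_congr rfl fun x _ => h6 x, Finset.prod_div_distrib, Finset.prod_pow,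
      Finset.prod_pow, ← hA, ← hB, h4, div_self]
    rw [← h4]
    exact pow_ne_zero _ hA0
  have h6 := hfull k h5 x.1 x.2
  change k x = k (cj x) at h6
  simp only [k] at h6
  rw [cj_cj] at h6
  have h7 : (l.count x : ℤ) - l.count (cj x) = l.count (cj x) - l.count x :=
    mul_left_cancel₀ (by exact_mod_cast hM.ne') h6
  omega

variable [∀ i, IsCMField (K i)]

theorem cj_ne (x : Σ i, (K i →+* ℂ)) : cj x ≠ x := by
  obtain ⟨i, φ⟩ := x
  intro h
  have h1 : ComplexEmbedding.conjugate φ = φ := eq_of_heq (Sigma.mk.inj_iff.1 h).2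
  exact Pool.Agent.TH170.GH.conjugate_ne φ h1

theorem weil_emb {π : ∀ i, K i} {q : ℕ}
    (hw : ∀ i, π i * IsCMField.complexConj (K i) (π i) = (q : K i)) (x : Σ i, (K i →+* ℂ)) :
    x.2 (π x.1) * (starRingEnd ℂ) (x.2 (π x.1)) = q := by
  have h3 : (starRingEnd ℂ) (x.2 (π x.1)) = x.2 (IsCMField.complexConj (K x.1) (π x.1)) :=
    (IsCMField.complexEmbedding_complexConj (K x.1) x.2 (π x.1)).symm
  rw [h3, ← map_mul, hw, map_natCast]

/-- **No relations.** -/
theorem noRel_of_full {π : ∀ i, K i} (hfull : FullAngleRank π) {q : ℕ} (hq : 0 < q)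
    (hw : ∀ i, π i * IsCMField.complexConj (K i) (π i) = (q : K i)) {f : I → ℤ[X]}
    (hf : ∀ i, IsPolyOf (π i) (f i)) : NoRel f q (Independent K) := by
  classical
  refine ⟨fun i => (hf i).1, ⟨one_ne_zero, fun i ψ => ?_⟩, fun s hs ρ hρ => ?_⟩
  · exact ⟨starRingAut, 1, one_pos, by simp, fun x => rfl⟩
  have hwE := weil_emb hw
  -- the polynomial
  let P : ℚ[X] := ∏ i, minpoly ℚ (π i)
  have hP : P ≠ 0 := Finset.prod_ne_zero_iff.2 fun i _ =>
    minpoly.ne_zero (Algebra.IsIntegral.isIntegral (π i))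
  have hroot : ∀ α : ℂ, aeval α P = 0 ↔ ∃ x : Σ i, (K i →+* ℂ), x.2 (π x.1) = α := by
    intro α
    have h1 : aeval α P = ∏ i, aeval α (minpoly ℚ (π i)) := by
      rw [map_prod]
    rw [h1, Finset.prod_eq_zero_iff]
    constructor
    · rintro ⟨i, -, hi⟩
      have h2 : α ∈ (minpoly ℚ (π i)).rootSet ℂ := by
        rw [Polynomial.mem_rootSet]
        exact ⟨minpoly.ne_zero (Algebra.IsIntegral.isIntegral (π i)), hi⟩
      rw [← NumberField.Embeddings.range_eval_eq_rootSet_minpoly] at h2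
      obtain ⟨φ, hφ⟩ := h2
      exact ⟨⟨i, φ⟩, hφ⟩
    · rintro ⟨x, rfl⟩
      refine ⟨x.1, Finset.mem_univ _, ?_⟩
      have h2 : x.2 (π x.1) ∈ (minpoly ℚ (π x.1)).rootSet ℂ := by
        rw [← NumberField.Embeddings.range_eval_eq_rootSet_minpoly]
        exact ⟨x.2, rfl⟩
      exact (Polynomial.mem_rootSet.1 h2).2
  have hwP : ∀ α : ℂ, aeval α P = 0 → α * (starRingEnd ℂ) α = q := by
    intro α hα
    obtain ⟨x, rfl⟩ := (hroot α).1 hα
    exact hwE x
  have hun : Unrelated P ρ := by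
    intro α hα
    obtain ⟨x, rfl⟩ := (hroot α).1 hα
    obtain ⟨τ, m, hm, h1, h2⟩ := hρ.2 x.1 x.2
    exact ⟨τ, h2 _, m, hm, h1⟩
  obtain ⟨β, hβ⟩ : ∃ β : ℂ, β ^ s = ρ := IsAlgClosed.exists_pow_nat_eq ρ hs
  have hunβ : Unrelated P β := by
    intro α hα
    obtain ⟨τ, h1, m, hm, h2⟩ := hun α hα
    refine ⟨τ, h1, s * m, Nat.mul_pos hs hm, ?_⟩
    rw [pow_mul, hβ, h2]
  intro n c N hN hn ys hlen hrel hpw
  have hidx : ∀ z : {z : ℂ // ∃ i, aeval z (f i) = 0}, ∃ x : Σ i, (K i →+* ℂ),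
      x.2 (π x.1) = (z : ℂ) := by
    rintro ⟨z, i, hi⟩
    obtain ⟨φ, hφ⟩ := (hf i).2 z hi
    exact ⟨⟨i, φ⟩, hφ⟩
  choose idx hidx using hidx
  let l : List (Σ i, (K i →+* ℂ)) := ys.map idx
  let lP : List (Rt P) := ys.map fun z : {z : ℂ // ∃ i, aeval z (f i) = 0} =>
    (⟨(z : ℂ), (hroot _).2 ⟨idx z, hidx z⟩⟩ : Rt P)
  have hl : (l.map fun x => x.2 (π x.1)) = ys.map Subtype.val := by
    simp only [l, List.map_map]
    exact List.map_congr_left fun z _ => hidx z
  have hlP : lP.map Subtype.val = ys.map Subtype.val := by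
    simp only [lP, List.map_map]
    rfl
  have hpows : ∀ ys : List {z : ℂ // ∃ i, aeval z (f i) = 0},
      (ys.map fun z : {z : ℂ // ∃ i, aeval z (f i) = 0} => (z : ℂ) ^ s).prod =
        (ys.map Subtype.val).prod ^ s := by
    intro ys
    induction ys with
    | nil => simp
    | cons a ys ih => rw [List.map_cons, List.prod_cons, ih, List.map_cons, List.prod_cons, mul_pow]
  have h1 : (lP.map Subtype.val).prod ^ (s * N) * β ^ (s * N) =
      ((((q : ℚ) ^ s) ^ c) ^ N : ℚ) := by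
    rw [hlP, pow_mul, pow_mul, ← hpows, hβ, ← mul_pow, hrel]
    push_cast
    rfl
  have hqQ : (q : ℚ) ≠ 0 := by exact_mod_cast hq.ne'
  obtain ⟨M, hM, h2⟩ := norm_arg hP hq hwP hunβ lP (Nat.mul_pos hs hN)
    (pow_ne_zero _ (zpow_ne_zero _ (pow_ne_zero _ hqQ))) h1
  have h3 : (l.map fun x => x.2 (π x.1)).prod ^ (2 * M) = (q : ℂ) ^ (l.length * M) := by
    rw [hl, ← hlP, h2]
    simp only [l, lP, List.length_map]
  -- the pair
  obtain ⟨y, ys', rfl⟩ : ∃ y ys', ys = y :: ys' := by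
    cases ys with
    | nil => simp at hlen; omega
    | cons y ys' => exact ⟨y, ys', rfl⟩
  have h4 : 0 < l.count (idx y) := List.count_pos_iff.2 (by simp [l])
  rw [count_cj hfull hq hwE l hM h3 (idx y)] at h4
  obtain ⟨y', hy', h5⟩ : ∃ y' ∈ y :: ys', idx y' = cj (idx y) :=
    List.mem_map.1 (List.count_pos_iff.1 h4)
  have hne : y ≠ y' := by
    rintro rfl
    exact cj_ne (idx y) h5.symm
  have h6 : (y : ℂ) * (y' : ℂ) = q := by
    rw [← hidx y, ← hidx y', h5]
    exact hwE (idx y)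
  have hsymm : Std.Symm fun y y' : {z : ℂ // ∃ i, aeval z (f i) = 0} =>
      (y : ℂ) ^ s * (y' : ℂ) ^ s ≠ (q : ℂ) ^ s := ⟨fun a b hab h7 => hab (by rw [mul_comm]; exact h7)⟩
  refine (hpw.forall (List.mem_cons_self ..) hy' hne) ?_
  rw [← mul_pow, h6]

end Pool.Agent.K6.H79.TX
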