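import Mathlib
import Pool.Agent.TH170.MF.Field
import Pool.Agent.K6.H79.MU.Norm

/-!
# Roots of unity among the products of Weil numbers: bounded orders
-/

set_option autoImplicit false
set_option linter.unusedSectionVars false

namespace Pool.Agent.K6.H79.TX

open NumberField Polynomial Pool.Agent.K6.H79.MU

/-- Automorphisms of `ℂ` act transitively on the primitive roots of unity. -/
theorem exists_tau_root {d : ℕ} (hd : 0 < d) {ξ η : ℂ} (hξ : IsPrimitiveRoot ξ d)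
    (hη : IsPrimitiveRoot η d) : ∃ τ : ℂ ≃+* ℂ, τ ξ = η := by
  have : NeZero d := ⟨hd.ne'⟩
  have : NeZero ((d : ℕ) : ℚ) := ⟨by exact_mod_cast hd.ne'⟩
  have : IsCyclotomicExtension {d} ℚ (CyclotomicField d ℚ) :=
    CyclotomicField.isCyclotomicExtension d ℚ
  have hζ := IsCyclotomicExtension.zeta_spec d ℚ (CyclotomicField d ℚ)
  have hirr : Irreducible (cyclotomic d ℚ) := cyclotomic.irreducible_rat hd
  let E := hζ.embeddingsEquivPrimitiveRoots ℂ hirr
  let φ : CyclotomicField d ℚ →ₐ[ℚ] ℂ := E.symm ⟨ξ, (mem_primitiveRoots hd).2 hξ⟩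
  let ψ : CyclotomicField d ℚ →ₐ[ℚ] ℂ := E.symm ⟨η, (mem_primitiveRoots hd).2 hη⟩
  have h1 : φ (IsCyclotomicExtension.zeta d ℚ (CyclotomicField d ℚ)) = ξ := by
    have h2 := hζ.embeddingsEquivPrimitiveRoots_apply_coe ℂ hirr φ
    rw [← h2]
    simp only [φ, E, Equiv.apply_symm_apply]
  have h2 : ψ (IsCyclotomicExtension.zeta d ℚ (CyclotomicField d ℚ)) = η := by
    have h2 := hζ.embeddingsEquivPrimitiveRoots_apply_coe ℂ hirr ψ
    rw [← h2]
    simp only [ψ, E, Equiv.apply_symm_apply]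
  have : NumberField (CyclotomicField d ℚ) := IsCyclotomicExtension.numberField {d} ℚ _
  obtain ⟨σ, hσ⟩ := Pool.Agent.TH170.MF.exists_comp_eq (CyclotomicField d ℚ) (φ : CyclotomicField d ℚ →+* ℂ)
    (ψ : CyclotomicField d ℚ →+* ℂ)
  refine ⟨σ, ?_⟩
  rw [← h1, ← h2]
  exact RingHom.congr_fun hσ _

theorem prime_pow_le {p k : ℕ} (hp : p.Prime) : p ^ k ≤ 2 * (p ^ k).totient := by
  rcases Nat.eq_zero_or_pos k with rfl | hk
  · simp
  · rw [Nat.totient_prime_pow hp hk]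
    obtain ⟨k, rfl⟩ : ∃ j, k = j + 1 := ⟨k - 1, by omega⟩
    rw [Nat.add_sub_cancel, pow_succ]
    have h1 := hp.two_le
    calc p ^ k * p ≤ p ^ k * (2 * (p - 1)) := Nat.mul_le_mul_left _ (by omega)
      _ = 2 * (p ^ k * (p - 1)) := by ring

/-- A root of unity with at most `D` conjugates has an order dividing `(2 D)!`. -/
theorem pow_of_conjugates {ζ : ℂ} {n : ℕ} (hn : 0 < n) (hζ : ζ ^ n = 1) {D : ℕ} (S : Finset ℂ)
    (hS : ∀ τ : ℂ ≃+* ℂ, τ ζ ∈ S) (hD : S.card ≤ D) : ζ ^ (2 * D).factorial = 1 := by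
  classical
  have hfin : IsOfFinOrder ζ := isOfFinOrder_iff_pow_eq_one.2 ⟨n, hn, hζ⟩
  rw [← orderOf_dvd_iff_pow_eq_one, Nat.dvd_iff_prime_pow_dvd_dvd]
  intro p k hp hdvd
  obtain ⟨m, hm⟩ := hdvd
  have hpk : 0 < p ^ k := pow_pos hp.pos k
  have hm0 : m ≠ 0 := by
    rintro rfl
    rw [mul_zero] at hm
    exact hfin.orderOf_pos.ne' hm
  have hprim : IsPrimitiveRoot (ζ ^ m) (p ^ k) := by
    have h1 : orderOf (ζ ^ m) = p ^ k := by
      rw [orderOf_pow_of_dvd hm0 ⟨p ^ k, by rw [hm, mul_comm]⟩, hm]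
      exact Nat.mul_div_cancel _ (Nat.pos_of_ne_zero hm0)
    rw [← h1]
    exact IsPrimitiveRoot.orderOf _
  have hsub : primitiveRoots (p ^ k) ℂ ⊆ S.image (fun z => z ^ m) := by
    intro η hη
    obtain ⟨τ, hτ⟩ := exists_tau_root hpk hprim ((mem_primitiveRoots hpk).1 hη)
    refine Finset.mem_image.2 ⟨τ ζ, hS τ, ?_⟩
    rw [← map_pow, hτ]
  have h1 : (p ^ k).totient ≤ D := by
    rw [← Complex.card_primitiveRoots]
    exact (Finset.card_le_card hsub).trans (Finset.card_image_le.trans hD)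
  exact Nat.dvd_factorial hpk ((prime_pow_le hp).trans (Nat.mul_le_mul_left 2 h1))

/-- The uniform exponent. -/
theorem uniform_exp {R : ℚ[X]} (hR : R ≠ 0) {q : ℕ} (hq : 0 < q) {i d : ℕ}
    (hd : R.natDegree ≤ d) (x : Fin i → Rt R) {M : ℕ} (hM : 0 < M)
    (h : (∏ l, (x l).1) ^ (2 * M) = (q : ℂ) ^ (i * M)) :
    (∏ l, (x l).1) ^ (2 * (2 * d ^ i).factorial) = (q : ℂ) ^ (i * (2 * d ^ i).factorial) := by
  classical
  have hfin := finite_rt hR
  have hft : Fintype (Rt R) := Fintype.ofFinite _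
  have hcard : Fintype.card (Rt R) ≤ d := by
    refine le_trans ?_ hd
    have h1 : Fintype.card (Rt R) ≤ (R.rootSet ℂ).ncard := by
      have h2 : R.rootSet ℂ = {α : ℂ | aeval α R = 0} := by
        ext α
        rw [Polynomial.mem_rootSet]
        exact ⟨fun h => h.2, fun h => ⟨hR, h⟩⟩
      rw [h2, ← Nat.card_eq_fintype_card]
      rfl
    refine h1.trans ?_
    rw [Polynomial.rootSet, Set.ncard_coe_finset]
    exact (Multiset.toFinset_card_le _).trans ((Polynomial.card_roots' _).trans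
      (Polynomial.natDegree_map_le))
  have hqC : (q : ℂ) ≠ 0 := by exact_mod_cast hq.ne'
  set θ : ℂ := ∏ l, (x l).1 with hθ
  have hζ : (θ ^ 2 / (q : ℂ) ^ i) ^ M = 1 := by
    rw [div_pow, ← pow_mul, h, ← pow_mul]
    exact div_self (pow_ne_zero _ hqC)
  let S : Finset ℂ := (Finset.univ : Finset (Fin i → Rt R)).image
    fun y => (∏ l, (y l).1) ^ 2 / (q : ℂ) ^ i
  have hS : ∀ τ : ℂ ≃+* ℂ, τ (θ ^ 2 / (q : ℂ) ^ i) ∈ S := by
    intro τ
    refine Finset.mem_image.2 ⟨fun l => act R τ (x l), Finset.mem_univ _, ?_⟩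
    rw [map_div₀, map_pow, map_pow, map_natCast, hθ, map_prod]
    rfl
  have hSc : S.card ≤ d ^ i := by
    refine Finset.card_image_le.trans ?_
    rw [Finset.card_univ, Fintype.card_fun, Fintype.card_fin]
    exact Nat.pow_le_pow_left hcard i
  have h1 := pow_of_conjugates hM hζ S hS hSc
  rw [div_pow, div_eq_one_iff_eq (pow_ne_zero _ (pow_ne_zero _ hqC)), ← pow_mul, ← pow_mul] at h1
  exact h1

end Pool.Agent.K6.H79.TX
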