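import Mathlib
import Pool.Agent.R401.Iso
import Pool.Agent.TH170.FT.Tate
import Pool.Agent.K6.H79.MU.Norm

/-!
# Forms with values in a representation, and the eigenvalues of Frobenius
-/

set_option autoImplicit false
set_option linter.unusedSectionVars false

namespace Pool.Agent.K6.H79.TX

open NumberField Module Polynomial Pool.Agent.H204R3.GP Pool.Agent.H204R3.SP
  Pool.Agent.H204R3.CM Pool.Agent.K6.H79.MU TensorProduct

section func

variable {k Ω H : Type} [Field k] [Field Ω] [Algebra k Ω] [AddCommGroup H] [Module k H]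
  [FiniteDimensional k H]

/-- An eigenvalue of the transpose is a root of the characteristic polynomial. -/
theorem root_of_functional (A : End k H) (ψ : (H →ₗ[k] k) →ₗ[k] Ω) (c : Ω)
    (hψ : ∀ l : H →ₗ[k] k, ψ (l ∘ₗ A) = c * ψ l) {l₀ : H →ₗ[k] k} (h0 : ψ l₀ ≠ 0) :
    aeval c A.charpoly = 0 := by
  have h1 : ∀ P : k[X], ∀ l : H →ₗ[k] k, ψ (l ∘ₗ aeval A P) = aeval c P * ψ l := by
    intro P
    induction P using Polynomial.induction_on' with
    | add P Q hP hQ =>
      intro l
      rw [map_add, LinearMap.comp_add, map_add, hP, hQ, map_add, add_mul]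
    | monomial n a =>
      intro l
      rw [← C_mul_X_pow_eq_monomial, map_mul, map_mul, aeval_C, aeval_C, map_pow, map_pow, aeval_X,
        aeval_X]
      have h2 : ∀ n : ℕ, ∀ l : H →ₗ[k] k, ψ (l ∘ₗ (A ^ n)) = c ^ n * ψ l := by
        intro n
        induction n with
        | zero =>
          intro l
          rw [pow_zero, pow_zero, one_mul]
          rfl
        | succ n ih =>
          intro l
          have h3 : l ∘ₗ (A ^ (n + 1)) = (l ∘ₗ (A ^ n)) ∘ₗ A := by
            rw [pow_succ]
            rfl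
          rw [h3, hψ, ih, pow_succ]
          ring
      have h4 : l ∘ₗ (algebraMap k (End k H) a * A ^ n) = a • (l ∘ₗ (A ^ n)) := by
        ext x
        simp [Module.algebraMap_end_apply]
      rw [h4, map_smul, h2, Algebra.smul_def, mul_assoc]
  have h2 := h1 A.charpoly l₀
  rw [LinearMap.aeval_self_charpoly, LinearMap.comp_zero, map_zero] at h2
  exact (mul_eq_zero.1 h2.symm).resolve_right h0

/-- Eigenvalues of powers. -/
theorem exists_root_pow [IsAlgClosed Ω] (S S' : End k H) (hS : S * S' = 1) {a : k} (ha : a ≠ 0)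
    {N : ℕ} (hN : 0 < N) {c : Ω} (hc : aeval c (a • S' ^ N).charpoly = 0) :
    ∃ β : Ω, aeval β S.charpoly = 0 ∧ c * β ^ N = algebraMap k Ω a := by
  have hS' : S' * S = 1 := mul_eq_one_comm.1 hS
  let T : End Ω (Ω ⊗[k] H) := S.baseChange Ω
  let T' : End Ω (Ω ⊗[k] H) := S'.baseChange Ω
  have hT : T * T' = 1 := by
    change S.baseChange Ω * S'.baseChange Ω = 1
    rw [← LinearMap.baseChange_mul, hS]
    exact LinearMap.baseChange_id
  have hT' : T' * T = 1 := mul_eq_one_comm.1 hT
  have h1 : ((a • S' ^ N).baseChange Ω) = algebraMap k Ω a • T' ^ N := by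
    rw [LinearMap.baseChange_smul, LinearMap.baseChange_pow, algebraMap_smul]
  have h2 : (algebraMap k Ω a • T' ^ N).HasEigenvalue c := by
    rw [Module.End.hasEigenvalue_iff_isRoot_charpoly, ← h1, LinearMap.charpoly_baseChange,
      Polynomial.IsRoot, Polynomial.eval_map_algebraMap]
    exact hc
  obtain ⟨w, hw⟩ := h2.exists_hasEigenvector
  have hw1 : algebraMap k Ω a • (T' ^ N) w = c • w := hw.apply_eq_smul
  have hw0 : w ≠ 0 := hw.2
  have ha' : algebraMap k Ω a ≠ 0 := fun h => ha ((map_eq_zero _).1 h)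
  have h3 : T ^ N * T' ^ N = 1 := by
    have hcomm : Commute T T' := by
      unfold Commute SemiconjBy
      rw [hT, hT']
    rw [← hcomm.mul_pow, hT, one_pow]
  have h4 : algebraMap k Ω a • w = c • (T ^ N) w := by
    have := congrArg (fun z => (T ^ N) z) hw1
    simp only [map_smul] at this
    rw [← Module.End.mul_apply, h3, Module.End.one_apply] at this
    exact this
  have hc0 : c ≠ 0 := by
    rintro rfl
    rw [zero_smul] at h4
    exact (smul_ne_zero ha' hw0) h4
  have h5 : (T ^ N) w = (algebraMap k Ω a / c) • w := by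
    rw [div_eq_mul_inv, mul_comm, mul_smul, h4, smul_smul, inv_mul_cancel₀ hc0, one_smul]
  have h6 : (T ^ N).HasEigenvalue (algebraMap k Ω a / c) :=
    Module.End.hasEigenvalue_of_hasEigenvector ⟨Module.End.mem_eigenspace_iff.2 h5, hw0⟩
  have h7 := h6.mem_spectrum
  rw [spectrum.map_pow_of_pos T hN] at h7
  obtain ⟨β, hβ, hβ'⟩ := h7
  refine ⟨β, ?_, ?_⟩
  · have h8 := Module.End.hasEigenvalue_iff_mem_spectrum.2 hβ
    rw [Module.End.hasEigenvalue_iff_isRoot_charpoly, LinearMap.charpoly_baseChange,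
      Polynomial.IsRoot, Polynomial.eval_map_algebraMap] at h8
    exact h8
  · simp only at hβ'
    rw [hβ', mul_div_cancel₀ _ hc0]

end func

section numbers

variable {p : ℕ} [Fact p.Prime] {a : ℕ} {ι : Type} [Fintype ι] {F : ι → Type}
  [∀ i, Field (F i)] [∀ i, NumberField (F i)] [∀ i, IsCMField (F i)]
  {L : Type} [Field L] [NumberField L] [IsGalois ℚ L]

/-- The product of the conjugates in a balanced family. -/
theorem balanced_prod {π : ∀ i, F i}
    (hw : ∀ i, π i * IsCMField.complexConj (F i) (π i) = (p : F i) ^ a)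
    (N : (Σ i, (F i →+* L)) → ℕ) (hN : ∀ y, N y = N (bar y)) [DecidableEq (Σ i, (F i →+* L))] :
    ∀ (n : ℕ) (T : Finset (Σ i, (F i →+* L))), T.card = n → (∀ y ∈ T, bar y ∈ T) →
      ∃ e : ℕ, ∑ y ∈ T, N y = 2 * e ∧ ∏ y ∈ T, val π y ^ N y = ((p : L) ^ a) ^ e := by
  intro n
  induction n using Nat.strong_induction_on with
  | _ n ih =>
    intro T hT hbar
    by_cases h0 : T = ∅
    · refine ⟨0, ?_, ?_⟩
      · rw [h0]
        simp
      · rw [h0]
        simp
    · obtain ⟨y, hy⟩ := Finset.nonempty_iff_ne_empty.2 h0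
      have hy' := hbar y hy
      have hne : bar y ≠ y := bar_ne y
      let T' := (T.erase y).erase (bar y)
      have hy1 : bar y ∈ T.erase y := Finset.mem_erase.2 ⟨hne, hy'⟩
      have hlt : T'.card < n := by
        rw [← hT]
        exact (Finset.card_lt_card (Finset.erase_ssubset hy1)).trans
          (Finset.card_lt_card (Finset.erase_ssubset hy))
      have hb : ∀ z ∈ T', bar z ∈ T' := by
        intro z hz
        have h1 := Finset.mem_erase.1 hz
        have h2 := Finset.mem_erase.1 h1.2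
        refine Finset.mem_erase.2 ⟨fun h => h2.1 ?_, Finset.mem_erase.2 ⟨fun h => h1.1 ?_, hbar z h2.2⟩⟩
        · rw [← bar_bar z, h, bar_bar]
        · rw [← h, bar_bar]
      obtain ⟨e, he1, he2⟩ := ih _ hlt T' rfl hb
      refine ⟨N y + e, ?_, ?_⟩
      · rw [← Finset.add_sum_erase T N hy, ← Finset.add_sum_erase _ N hy1, he1, ← hN y]
        ring
      · rw [← Finset.mul_prod_erase T _ hy, ← Finset.mul_prod_erase _ _ hy1, he2, ← hN y,
          ← mul_assoc, ← mul_pow, val_bar hw, pow_add]

/-- A relation between the conjugates of neat numbers is trivial. -/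
theorem prod_of_neat {π : ∀ i, F i}
    (hw : ∀ i, π i * IsCMField.complexConj (F i) (π i) = (p : F i) ^ a) (hneat : Neat p a π L)
    {κ : Type} [Fintype κ] (I : κ → (Σ i, (F i →+* L))) {M : ℕ} (hM : 0 < M)
    (h : (∏ l, val π (I l)) ^ (2 * M) = ((p : L) ^ a) ^ (Fintype.card κ * M)) :
    ∃ m, Fintype.card κ = 2 * m ∧ ∏ l, val π (I l) = ((p : L) ^ a) ^ m := by
  classical
  let e := Fintype.equivFin κ
  let I2 : Fin (Fintype.card κ) × Fin 2 → (Σ i, (F i →+* L)) := fun l => I (e.symm l.1)
  have h1 : ∏ l, (val π (I2 l)) ^ M = ((p : L) ^ a) ^ (Fintype.card κ * M) := by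
    rw [← h, Finset.prod_pow, Fintype.prod_prod_type]
    simp only [I2, Fin.prod_univ_two]
    rw [← Fintype.prod_equiv e (fun l => val π (I l) * val π (I l))
      (fun l => val π (I (e.symm l)) * val π (I (e.symm l))) (fun l => by
        rw [Equiv.symm_apply_apply]), Finset.prod_mul_distrib, ← pow_two, ← pow_mul]
  have h2 := hneat _ M hM I2 h1
  let N : (Σ i, (F i →+* L)) → ℕ := fun y => (Finset.univ.filter (fun l => I l = y)).card
  have h3 : ∀ y, (Finset.univ.filter (fun l => I2 l = y)).card = N y * 2 := by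
    intro y
    have h4 : (Finset.univ.filter (fun l => I2 l = y)) =
        ((Finset.univ.filter (fun l => I l = y)).map e.toEmbedding) ×ˢ
          (Finset.univ : Finset (Fin 2)) := by
      ext ⟨l, b⟩
      simp only [Finset.mem_filter, Finset.mem_univ, true_and, Finset.mem_product,
        Finset.mem_map, I2, and_true]
      constructor
      · intro h
        exact ⟨e.symm l, h, e.apply_symm_apply l⟩
      · rintro ⟨l', h, rfl⟩
        have : e.symm (e.toEmbedding l') = l' := e.symm_apply_apply l'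
        rw [this]
        exact h
    rw [h4, Finset.card_product, Finset.card_map]
    rfl
  have hN : ∀ y, N y = N (bar y) := by
    intro y
    have h4 := h2 y
    have h5 := h3 y
    have h6 := h3 (bar y)
    have h7 : N y * 2 = N (bar y) * 2 := by
      rw [← h5, ← h6]
      convert h4
    omega
  obtain ⟨m, hm1, hm2⟩ := balanced_prod (L := L) hw N hN _ Finset.univ rfl
    (fun y _ => Finset.mem_univ _)
  refine ⟨m, ?_, ?_⟩
  · rw [← hm1, ← Finset.card_univ]
    exact Finset.card_eq_sum_card_fiberwise (fun l _ => Finset.mem_univ (I l))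
  · rw [← hm2]
    have h8 : ∀ y, val π y ^ N y = ∏ l ∈ Finset.univ.filter (fun l => I l = y), val π (I l) := by
      intro y
      rw [Finset.prod_congr rfl (fun l hl => by
        rw [(Finset.mem_filter.1 hl).2] : ∀ l ∈ Finset.univ.filter (fun l => I l = y),
          val π (I l) = val π y), Finset.prod_const]
    rw [Finset.prod_congr rfl (fun y _ => h8 y)]
    exact (Finset.prod_fiberwise Finset.univ I (fun l => val π (I l))).symm

/-- The roots of the product of the minimal polynomials of Weil numbers. -/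
theorem weil_roots {π : ∀ i, F i}
    (hw : ∀ i, π i * IsCMField.complexConj (F i) (π i) = (p : F i) ^ a) (α : ℂ)
    (hα : aeval α (∏ i, minpoly ℚ (π i)) = 0) : α * (starRingEnd ℂ) α = ((p ^ a : ℕ) : ℂ) := by
  rw [map_prod, Finset.prod_eq_zero_iff] at hα
  obtain ⟨i, -, hi⟩ := hα
  have h1 : α ∈ (minpoly ℚ (π i)).rootSet ℂ := by
    rw [Polynomial.mem_rootSet]
    exact ⟨minpoly.ne_zero (Algebra.IsIntegral.isIntegral _), hi⟩
  rw [← Embeddings.range_eval_eq_rootSet_minpoly (F i) ℂ (π i)] at h1
  obtain ⟨ψ, rfl⟩ := h1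
  have h2 : (starRingEnd ℂ) (ψ (π i)) = ψ (IsCMField.complexConj (F i) (π i)) :=
    (IsCMField.complexEmbedding_complexConj (F i) ψ (π i)).symm
  rw [h2, ← map_mul, hw, map_pow, map_natCast]
  push_cast
  rfl

theorem val_root {π : ∀ i, F i} (j : L →+* ℂ) (y : Σ i, (F i →+* L)) :
    aeval (j (val π y)) (∏ i, minpoly ℚ (π i)) = 0 := by
  rw [map_prod]
  refine Finset.prod_eq_zero (Finset.mem_univ y.1) ?_
  have h1 : ((j.comp y.2) (π y.1)) ∈ (minpoly ℚ (π y.1)).rootSet ℂ := by
    rw [← Embeddings.range_eval_eq_rootSet_minpoly (F y.1) ℂ (π y.1)]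
    exact ⟨j.comp y.2, rfl⟩
  exact ((Polynomial.mem_rootSet.1 h1).2)

/-- The eigenvalues in a class on the product, for unrelated numbers. -/
theorem trivial_of_unrelated {π : ∀ i, F i}
    (hw : ∀ i, π i * IsCMField.complexConj (F i) (π i) = (p : F i) ^ a) (hneat : Neat p a π L)
    (j : L →+* ℂ) {κ : Type} [Fintype κ] (I : κ → (Σ i, (F i →+* L))) {β : ℂ}
    (hβ : Unrelated (∏ i, minpoly ℚ (π i)) β) {N r : ℕ} (hN : 0 < N)
    (h : (∏ l, j (val π (I l))) ^ N * β ^ N = ((p ^ a : ℕ) : ℂ) ^ r) :
    ∃ m, Fintype.card κ = 2 * m ∧ ∏ l, val π (I l) = ((p : L) ^ a) ^ m := by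
  classical
  have hp : 0 < p ^ a := pow_pos (Fact.out : p.Prime).pos a
  have hP : (∏ i, minpoly ℚ (π i)) ≠ 0 :=
    Finset.prod_ne_zero_iff.2 fun i _ => minpoly.ne_zero (Algebra.IsIntegral.isIntegral _)
  let s : List (Rt (∏ i, minpoly ℚ (π i))) :=
    (Finset.univ : Finset κ).toList.map fun l => ⟨j (val π (I l)), val_root j (I l)⟩
  have hs : (s.map Subtype.val).prod = ∏ l, j (val π (I l)) := by
    simp only [s, List.map_map]
    exact Finset.prod_map_toList Finset.univ (fun l => j (val π (I l)))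
  have hlen : s.length = Fintype.card κ := by
    simp only [s, List.length_map, Finset.length_toList, Finset.card_univ]
  obtain ⟨M, hM, h1⟩ := norm_arg hP hp (weil_roots hw) hβ s (c := ((p ^ a : ℕ) : ℚ) ^ r) hN
    (pow_ne_zero _ (by exact_mod_cast hp.ne')) (by
      rw [hs, h]
      push_cast
      rfl)
  rw [hs, hlen] at h1
  refine prod_of_neat hw hneat I hM ?_
  apply j.injective
  rw [map_pow, map_prod, h1, map_pow, map_pow, map_natCast]
  push_cast
  rfl

end numbers

end Pool.Agent.K6.H79.TX
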