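import Mathlib
import Pool.Agent.K6.H79.TX.Eig

/-!
# Forms with values in a representation, and one Frobenius element
-/

set_option autoImplicit false
set_option linter.unusedSectionVars false

namespace Pool.Agent.K6.H79.TX

open NumberField Module Polynomial Pool.Agent.H204R3.GP Pool.Agent.H204R3.SP
  Pool.Agent.H204R3.CM Pool.Agent.K6.H79.MU TensorProduct

section bc

variable {k Ω V H : Type} [Field k] [Field Ω] [Algebra k Ω] [AddCommGroup V] [Module k V]
  [AddCommGroup H] [Module k H] {ν : Type} [Fintype ν] [DecidableEq ν] (b : Basis ν k V)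
  {Γ : Type} [Group Γ] (ρ : Representation k Γ V) {κ : Type} [Fintype κ] [DecidableEq κ]

theorem bcm_comp (g : MultilinearMap k (fun _ : κ => V) k) (s : Γ) (w : κ → Ω ⊗[k] V) :
    bcm (Ω := Ω) b (g.compLinearMap fun _ => ρ s) w =
      bcm (Ω := Ω) b g (fun l => bcr ρ Ω s (w l)) := by
  have h : bcm (Ω := Ω) b (g.compLinearMap fun _ => ρ s) =
      (bcm (Ω := Ω) b g).compLinearMap (fun _ => bcr ρ Ω s) := by
    refine Basis.ext_multilinear (fun _ => b.baseChange Ω) fun I => ?_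
    rw [bcm_basis]
    change _ = (bcm (Ω := Ω) b g) (fun l => bcr ρ Ω s (b.baseChange Ω (I l)))
    have h2 : ∀ l, bcr ρ Ω s (b.baseChange Ω (I l)) = (1 : Ω) ⊗ₜ[k] ρ s (b (I l)) := by
      intro l
      rw [Basis.baseChange_apply, bcr_tmul]
    simp only [h2]
    rw [bcm_one]
    rfl
  rw [h]
  rfl

theorem bcm_eq (g : MultilinearMap k (fun _ : κ => V) k) (w : κ → Ω ⊗[k] V) :
    bcm (Ω := Ω) b g w = ∑ I : κ → ν, algebraMap k Ω (g fun l => b (I l)) *
      ((MultilinearMap.mkPiAlgebra Ω κ Ω).compLinearMap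
        fun l => (b.baseChange Ω).coord (I l)) w := by
  unfold bcm
  rw [sum_apply]
  rfl

/-- The value of the base change of `l ∘ φ` at `w`, as a function of `l`. -/
noncomputable def evl (φ : MultilinearMap k (fun _ : κ => V) H) (w : κ → Ω ⊗[k] V) :
    (H →ₗ[k] k) →ₗ[k] Ω where
  toFun l := bcm (Ω := Ω) b (l.compMultilinearMap φ) w
  map_add' l l' := by
    rw [bcm_eq, bcm_eq, bcm_eq, ← Finset.sum_add_distrib]
    refine Finset.sum_congr rfl fun I _ => ?_
    rw [← add_mul, ← map_add]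
    rfl
  map_smul' c l := by
    rw [bcm_eq, bcm_eq, RingHom.id_apply, Finset.smul_sum]
    refine Finset.sum_congr rfl fun I _ => ?_
    rw [Algebra.smul_def, ← mul_assoc, ← map_mul]
    rfl

theorem evl_apply (φ : MultilinearMap k (fun _ : κ => V) H) (w : κ → Ω ⊗[k] V)
    (l : H →ₗ[k] k) : evl b φ w l = bcm (Ω := Ω) b (l.compMultilinearMap φ) w := rfl

end bc

/-- The class `φ` of `H ^ i(A) ⊗ H`, twisted `r` times, is fixed by `s`. -/
def FixedBy {k V H Γ κ : Type} [Field k] [AddCommGroup V] [Module k V] [AddCommGroup H]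
    [Module k H] [Group Γ] (ρ : Representation k Γ V) (χ : Γ →* k) (σ : Representation k Γ H)
    (r : ℕ) (φ : MultilinearMap k (fun _ : κ => V) H) (s : Γ) : Prop :=
  ∀ v : κ → V, φ (fun l => ρ s (v l)) = χ s ^ r • σ s (φ v)

variable {p : ℕ} [Fact p.Prime] {a : ℕ} {ι : Type} [Fintype ι] {F : ι → Type}
  [∀ i, Field (F i)] [∀ i, NumberField (F i)] [∀ i, IsCMField (F i)]
  {L : Type} [Field L] [NumberField L] [IsGalois ℚ L]

/-- **The Frobenius element acts on the classes by a power of `q`.** -/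
theorem frob_acts {π : ∀ i, F i} (hgen : ∀ i, IntermediateField.adjoin ℚ {π i} = ⊤)
    (hw : ∀ i, π i * IsCMField.complexConj (F i) (π i) = (p : F i) ^ a) (hneat : Neat p a π L)
    (hcard : ∀ i, Fintype.card (F i →+* L) = finrank ℚ (F i))
    {ℓ : ℕ} [Fact ℓ.Prime] {V H Γ : Type} [AddCommGroup V] [Module ℚ_[ℓ] V]
    [FiniteDimensional ℚ_[ℓ] V] [AddCommGroup H] [Module ℚ_[ℓ] H] [FiniteDimensional ℚ_[ℓ] H]
    [Group Γ] (ρ : Representation ℚ_[ℓ] Γ V) (χ : Γ →* ℚ_[ℓ]) (σ : Representation ℚ_[ℓ] Γ H)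
    (γ : Γ) (hχ : χ γ = (p : ℚ_[ℓ]) ^ a)
    (hγ : (ρ γ).charpoly = ∏ i, (minpoly ℚ (π i)).map (algebraMap ℚ ℚ_[ℓ]))
    {Q : ℚ[X]} (hQ : (σ γ⁻¹).charpoly = Q.map (algebraMap ℚ ℚ_[ℓ]))
    (hun : ∀ β : ℂ, aeval β Q = 0 → Unrelated (∏ i, minpoly ℚ (π i)) β)
    {κ : Type} [Fintype κ] [DecidableEq κ] {r : ℕ}
    (φ : MultilinearMap ℚ_[ℓ] (fun _ : κ => V) H) (Δ : Subgroup Γ) (hΔ : Δ.FiniteIndex)
    (hφ : ∀ s ∈ Δ, FixedBy ρ χ σ r φ s) :
    (φ ≠ 0 → ∃ m, Fintype.card κ = 2 * m) ∧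
    ∀ m, Fintype.card κ = 2 * m →
      ∀ v : κ → V, φ (fun l => ρ γ (v l)) = ((p : ℚ_[ℓ]) ^ a) ^ m • φ v := by
  classical
  let Ω : Type := PadicAlgCl ℓ
  let jΩ : L →+* Ω := ((IsAlgClosed.lift : L →ₐ[ℚ] Ω) : L →+* Ω)
  obtain ⟨ν⟩ := Pool.Agent.R401.Iso.exists_iso ℓ
  let j : L →+* ℂ := (ν : Ω →+* ℂ).comp jΩ
  have hinjv := val_inj_of_neat hw hneat
  let b := Module.finBasis ℚ_[ℓ] V
  have hTchar : (bcr ρ Ω γ).charpoly = ∏ i, (minpoly ℚ (π i)).map (algebraMap ℚ Ω) := by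
    change ((ρ γ).baseChange Ω).charpoly = _
    rw [LinearMap.charpoly_baseChange, hγ, Polynomial.map_prod]
    refine Finset.prod_congr rfl fun i _ => ?_
    rw [Polynomial.map_map]
    congr 1
  obtain ⟨e, he⟩ := exists_eigenbasisG (Ω := Ω) (L := L) hgen jΩ hcard hinjv
    (bcr ρ Ω γ) hTchar
  obtain ⟨N, hN, -, hNΔ⟩ := Subgroup.exists_pow_mem_of_index_ne_zero hΔ.index_ne_zero γ
  have hpow : ∀ (n : ℕ) (x : Σ i, (F i →+* L)),
      bcr ρ Ω (γ ^ n) (e x) = (jΩ (val π x)) ^ n • e x := by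
    intro n x
    induction n with
    | zero => rw [pow_zero, pow_zero, one_smul, map_one]; rfl
    | succ n ih =>
      rw [pow_succ, map_mul, pow_succ, Module.End.mul_apply, he]
      change bcr ρ Ω (γ ^ n) ((jΩ (val π x)) • e x) = _
      rw [map_smul, ih, smul_smul, mul_comm]
  have hp0 : (p : ℚ_[ℓ]) ≠ 0 := by exact_mod_cast (Fact.out : p.Prime).ne_zero
  -- the eigenvalues
  have key : ∀ (l : H →ₗ[ℚ_[ℓ]] ℚ_[ℓ]) (I : κ → Σ i, (F i →+* L)),
      bcm (Ω := Ω) b (l.compMultilinearMap φ) (fun x => e (I x)) ≠ 0 →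
      ∃ m, Fintype.card κ = 2 * m ∧ ∏ x, val π (I x) = ((p : L) ^ a) ^ m := by
    intro l I hl
    let A : End ℚ_[ℓ] H := (((p : ℚ_[ℓ]) ^ a) ^ (N * r)) • (σ γ) ^ N
    have hA : ∀ l : H →ₗ[ℚ_[ℓ]] ℚ_[ℓ], (l ∘ₗ A).compMultilinearMap φ =
        (l.compMultilinearMap φ).compLinearMap fun _ => ρ (γ ^ N) := by
      intro l
      ext v
      have h1 := hφ _ hNΔ v
      rw [LinearMap.compMultilinearMap_apply, MultilinearMap.compLinearMap_apply,
        LinearMap.compMultilinearMap_apply]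
      have h2 : A (φ v) = φ fun x => ρ (γ ^ N) (v x) := by
        rw [h1, map_pow χ, hχ, map_pow σ, ← pow_mul]
        rfl
      rw [LinearMap.comp_apply, h2]
    have h1 := root_of_functional A (evl b φ fun x => e (I x)) ((∏ x, jΩ (val π (I x))) ^ N)
      (fun l => by
        rw [evl_apply, evl_apply, hA, bcm_comp]
        simp only [hpow]
        rw [MultilinearMap.map_smul_univ, smul_eq_mul, Finset.prod_pow]) hl
    have hS : σ γ⁻¹ * σ γ = 1 := by rw [← map_mul, inv_mul_cancel, map_one]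
    obtain ⟨β, hβ1, hβ2⟩ := exists_root_pow (σ γ⁻¹) (σ γ) hS
      (pow_ne_zero (N * r) (pow_ne_zero a hp0)) hN h1
    have h2 : aeval (ν β) Q = 0 := by
      rw [hQ, Polynomial.aeval_def, Polynomial.eval₂_map] at hβ1
      have h3 := congrArg ν hβ1
      rw [map_zero] at h3
      rw [← h3, Polynomial.aeval_def]
      have h4 := Polynomial.hom_eval₂ Q ((algebraMap ℚ_[ℓ] Ω).comp (algebraMap ℚ ℚ_[ℓ]))
        (ν : Ω →+* ℂ) β
      refine Eq.trans ?_ h4.symm
      congr 1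
      exact Subsingleton.elim _ _
    refine trivial_of_unrelated hw hneat j I (hun _ h2) (r := N * r) hN ?_
    have h3 := congrArg ν hβ2
    rw [map_mul, map_pow, map_pow, map_prod] at h3
    refine Eq.trans h3 ?_
    simp only [map_pow, map_natCast]
    push_cast
    rfl
  -- functionals separate points
  have hsep : ∀ x : H, (∀ l : H →ₗ[ℚ_[ℓ]] ℚ_[ℓ], l x = 0) → x = 0 := fun x hx =>
    (Module.forall_dual_apply_eq_zero_iff ℚ_[ℓ] x).1 hx
  constructor
  · intro h0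
    by_contra hcon
    apply h0
    ext v
    apply hsep
    intro l
    have h1 : bcm (Ω := Ω) b (l.compMultilinearMap φ) = 0 := by
      refine Basis.ext_multilinear (fun _ => e) fun I => ?_
      by_contra h2
      obtain ⟨m, hm, -⟩ := key l I h2
      exact hcon ⟨m, hm⟩
    have h2 := bcm_one (Ω := Ω) b (l.compMultilinearMap φ) v
    rw [h1] at h2
    exact (map_eq_zero (algebraMap ℚ_[ℓ] Ω)).1 h2.symm
  · intro m hm v
    rw [← sub_eq_zero]
    apply hsep
    intro l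
    rw [map_sub, sub_eq_zero, map_smul]
    have h1 : bcm (Ω := Ω) b ((l.compMultilinearMap φ).compLinearMap fun _ => ρ γ) =
        (algebraMap ℚ_[ℓ] Ω (((p : ℚ_[ℓ]) ^ a) ^ m)) •
          bcm (Ω := Ω) b (l.compMultilinearMap φ) := by
      refine Basis.ext_multilinear (fun _ => e) fun I => ?_
      rw [bcm_comp, smul_apply]
      simp only [he]
      rw [MultilinearMap.map_smul_univ]
      by_cases h2 : bcm (Ω := Ω) b (l.compMultilinearMap φ) (fun x => e (I x)) = 0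
      · rw [h2, smul_zero, smul_zero]
      · obtain ⟨m', hm', h3⟩ := key l I h2
        have h4 : m' = m := by omega
        rw [← map_prod, h3, h4]
        congr 1
        rw [map_pow, map_pow, map_natCast, map_pow, map_pow, map_natCast]
    have h2 := bcm_one (Ω := Ω) b ((l.compMultilinearMap φ).compLinearMap fun _ => ρ γ) v
    rw [h1, smul_apply, bcm_one, smul_eq_mul, ← map_mul] at h2
    exact ((algebraMap ℚ_[ℓ] Ω).injective h2).symm

end Pool.Agent.K6.H79.TX
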