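import Mathlib
import Pool.Agent.K6.H79.TX.Form
import Pool.Agent.Y114.GF.Clifford

/-!
# The normal closure of a Frobenius element
-/

set_option autoImplicit false
set_option linter.unusedSectionVars false

namespace Pool.Agent.K6.H79.TX

open NumberField Module Polynomial Pool.Agent.H204R3.GP Pool.Agent.H204R3.SP
  Pool.Agent.H204R3.CM Pool.Agent.K6.H79.MU TensorProduct

variable {p : ℕ} [Fact p.Prime] {a : ℕ} {ι : Type} [Fintype ι] {F : ι → Type}
  [∀ i, Field (F i)] [∀ i, NumberField (F i)] [∀ i, IsCMField (F i)]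
  {L : Type} [Field L] [NumberField L] [IsGalois ℚ L]

theorem val_pow_inj {π : ∀ i, F i}
    (hw : ∀ i, π i * IsCMField.complexConj (F i) (π i) = (p : F i) ^ a) (hneat : Neat p a π L)
    {M : ℕ} (hM : 0 < M) {x y : Σ i, (F i →+* L)} (hxy : val π x ^ M = val π y ^ M) : x = y := by
  classical
  let I : Fin 1 × Fin 2 → (Σ i, (F i →+* L)) := fun l => if l.2 = 0 then x else bar y
  have h1 := hneat 1 M hM I (by
    rw [Fintype.prod_prod_type, Fin.prod_univ_one, Fin.prod_univ_two]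
    simp only [I, if_true, Fin.one_eq_zero_iff, OfNat.ofNat_ne_one, if_false, one_mul]
    rw [hxy, ← mul_pow, val_bar hw]) x
  have h2 : 0 < (Finset.univ.filter (fun l => I l = x)).card := by
    rw [Finset.card_pos]
    exact ⟨(0, 0), by simp [I]⟩
  rw [h1, Finset.card_pos] at h2
  obtain ⟨l, hl⟩ := h2
  rw [Finset.mem_filter] at hl
  have h3 := hl.2
  simp only [I] at h3
  split_ifs at h3
  · exact absurd h3.symm (bar_ne x)
  · rw [← bar_bar x, ← h3, bar_bar]

section endo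

variable {π : ∀ i, F i} (hgen : ∀ i, IntermediateField.adjoin ℚ {π i} = ⊤)
    (hw : ∀ i, π i * IsCMField.complexConj (F i) (π i) = (p : F i) ^ a) (hneat : Neat p a π L)
    (hcard : ∀ i, Fintype.card (F i →+* L) = finrank ℚ (F i))
    {ℓ : ℕ} [Fact ℓ.Prime] {V Γ : Type} [AddCommGroup V] [Module ℚ_[ℓ] V]
    [FiniteDimensional ℚ_[ℓ] V] [Group Γ] (ρ : Representation ℚ_[ℓ] Γ V) (γ : Γ)
    (hγ : (ρ γ).charpoly = ∏ i, (minpoly ℚ (π i)).map (algebraMap ℚ ℚ_[ℓ]))

include hgen hw hneat hcard hγ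

/-- Endomorphisms that commute with powers of the Frobenius element and have the same characteristic
polynomial. -/
theorem finite_commuting (P : ℚ_[ℓ][X]) :
    {c : End ℚ_[ℓ] V | (∃ N : ℕ, 0 < N ∧ ρ (γ ^ N) * c = c * ρ (γ ^ N)) ∧
      c.charpoly = P}.Finite := by
  classical
  let Ω : Type := PadicAlgCl ℓ
  let jΩ : L →+* Ω := ((IsAlgClosed.lift : L →ₐ[ℚ] Ω) : L →+* Ω)
  have hinjv := val_inj_of_neat hw hneat
  have hTchar : (bcr ρ Ω γ).charpoly = ∏ i, (minpoly ℚ (π i)).map (algebraMap ℚ Ω) := by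
    change ((ρ γ).baseChange Ω).charpoly = _
    rw [LinearMap.charpoly_baseChange, hγ, Polynomial.map_prod]
    refine Finset.prod_congr rfl fun i _ => ?_
    rw [Polynomial.map_map]
    congr 1
  obtain ⟨e, he⟩ := exists_eigenbasisG (Ω := Ω) (L := L) hgen jΩ hcard hinjv
    (bcr ρ Ω γ) hTchar
  have hpow : ∀ (n : ℕ) (x : Σ i, (F i →+* L)),
      bcr ρ Ω (γ ^ n) (e x) = (jΩ (val π x)) ^ n • e x := by
    intro n x
    induction n with
    | zero => rw [pow_zero, pow_zero, one_smul, map_one]; rfl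
    | succ n ih =>
      rw [pow_succ, map_mul, pow_succ, Module.End.mul_apply, he]
      change bcr ρ Ω (γ ^ n) ((jΩ (val π x)) • e x) = _
      rw [map_smul, ih, smul_smul, mul_comm]
  -- the endomorphisms are diagonal
  have hdiag : ∀ c : End ℚ_[ℓ] V, (∃ N : ℕ, 0 < N ∧ ρ (γ ^ N) * c = c * ρ (γ ^ N)) →
      ∀ x, ∃ μ : Ω, (c.baseChange Ω) (e x) = μ • e x := by
    rintro c ⟨N, hN, hc⟩ x
    have h1 : bcr ρ Ω (γ ^ N) ((c.baseChange Ω) (e x)) =
        (jΩ (val π x)) ^ N • (c.baseChange Ω) (e x) := by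
      have h2 : (ρ (γ ^ N)).baseChange Ω * c.baseChange Ω =
          c.baseChange Ω * (ρ (γ ^ N)).baseChange Ω := by
        rw [← LinearMap.baseChange_mul, hc, LinearMap.baseChange_mul]
      have h3 := congrArg (fun T : End Ω (Ω ⊗[ℚ_[ℓ]] V) => T (e x)) h2
      have h4 : bcr ρ Ω (γ ^ N) ((c.baseChange Ω) (e x)) =
          (c.baseChange Ω) (bcr ρ Ω (γ ^ N) (e x)) := h3
      rw [h4, hpow, map_smul]
    refine ⟨e.repr ((c.baseChange Ω) (e x)) x, ?_⟩
    apply e.repr.injective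
    ext y
    rw [map_smul, Finsupp.smul_apply, e.repr_self, Finsupp.single_apply, smul_eq_mul]
    by_cases hxy : x = y
    · rw [if_pos hxy, mul_one, hxy]
    · rw [if_neg hxy, mul_zero]
      have h5 : e.repr (bcr ρ Ω (γ ^ N) ((c.baseChange Ω) (e x))) y =
          (jΩ (val π y)) ^ N * e.repr ((c.baseChange Ω) (e x)) y := by
        have h6 : ∀ w : Ω ⊗[ℚ_[ℓ]] V, e.repr (bcr ρ Ω (γ ^ N) w) y =
            (jΩ (val π y)) ^ N * e.repr w y := by
          intro w
          have h7 : (e.coord y) ∘ₗ (bcr ρ Ω (γ ^ N)) = ((jΩ (val π y)) ^ N) • e.coord y := by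
            refine e.ext fun z => ?_
            rw [LinearMap.comp_apply, hpow, map_smul, LinearMap.smul_apply, Basis.coord_apply,
              e.repr_self, Finsupp.single_apply]
            by_cases hzy : z = y
            · rw [if_pos hzy, hzy]
            · rw [if_neg hzy, smul_zero, smul_zero]
          exact congrArg (fun T : (Ω ⊗[ℚ_[ℓ]] V) →ₗ[Ω] Ω => T w) h7
        exact h6 _
      rw [h1, map_smul, Finsupp.smul_apply, smul_eq_mul] at h5
      by_contra h0
      have h6 := mul_right_cancel₀ h0 h5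
      rw [← map_pow, ← map_pow] at h6
      exact hxy (val_pow_inj hw hneat hN (jΩ.injective h6))
  choose μ hμ using hdiag
  by_cases hP0 : P = 0
  · refine Set.Finite.subset Set.finite_empty ?_
    rintro c ⟨-, hc⟩
    exact absurd (hc.trans hP0) (LinearMap.charpoly_monic c).ne_zero
  -- the eigenvalues are roots of `P`
  have hroot : ∀ (c : End ℚ_[ℓ] V) (hc : ∃ N : ℕ, 0 < N ∧ ρ (γ ^ N) * c = c * ρ (γ ^ N)),
      c.charpoly = P → ∀ x, μ c hc x ∈ (P.map (algebraMap ℚ_[ℓ] Ω)).roots.toFinset := by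
    intro c hc hcP x
    rw [Multiset.mem_toFinset, Polynomial.mem_roots (by
      rw [Ne, Polynomial.map_eq_zero]
      exact hP0), ← hcP, ← LinearMap.charpoly_baseChange,
      ← Module.End.hasEigenvalue_iff_isRoot_charpoly]
    exact Module.End.hasEigenvalue_of_hasEigenvector
      ⟨Module.End.mem_eigenspace_iff.2 (hμ c hc x), e.ne_zero x⟩
  let R : Finset Ω := (P.map (algebraMap ℚ_[ℓ] Ω)).roots.toFinset
  let f : {c : End ℚ_[ℓ] V | (∃ N : ℕ, 0 < N ∧ ρ (γ ^ N) * c = c * ρ (γ ^ N)) ∧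
      c.charpoly = P} → ((Σ i, (F i →+* L)) → R) :=
    fun c x => ⟨μ c.1 c.2.1 x, hroot c.1 c.2.1 c.2.2 x⟩
  have hf : Function.Injective f := by
    intro c c' hcc
    apply Subtype.ext
    have h1 : c.1.baseChange Ω = c'.1.baseChange Ω := by
      refine e.ext fun x => ?_
      rw [hμ c.1 c.2.1 x, hμ c'.1 c'.2.1 x]
      have h2 := congrArg (fun g => ((g x : R) : Ω)) hcc
      simp only [f] at h2
      rw [h2]
    ext v
    have h2 := congrArg (fun T : End Ω (Ω ⊗[ℚ_[ℓ]] V) => T (1 ⊗ₜ v)) h1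
    simp only [LinearMap.baseChange_tmul] at h2
    exact Module.Flat.tensorProduct_mk_injective (R := ℚ_[ℓ]) (S := Ω) (M := V) h2
  exact Set.finite_coe_iff.1 (Finite.of_injective f hf)

end endo

end Pool.Agent.K6.H79.TX
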