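import Mathlib
import Pool.Agent.K6.H79.TX.Group
import Pool.Agent.K6.H79.TX.Defs

/-!
# Classes fixed by the normal closure of a Frobenius element
-/

set_option autoImplicit false
set_option linter.unusedSectionVars false

namespace Pool.Agent.K6.H79.TX

open NumberField Module Polynomial Pool.Agent.H204R3.GP Pool.Agent.H204R3.SP
  Pool.Agent.H204R3.CM Pool.Agent.K6.H79.MU TensorProduct Pool.Agent.TH170.FT

theorem finiteIndex_comap {G G' : Type} [Group G] [Group G'] (φ : G →* G') {H : Subgroup G'}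
    (hH : H.FiniteIndex) : (H.comap φ).FiniteIndex := by
  constructor
  rw [Subgroup.index_comap]
  exact (inferInstance : (H.subgroupOf φ.range).FiniteIndex).index_ne_zero

section pieces

variable {k V H Γ κ : Type} [Field k] [AddCommGroup V] [Module k V] [AddCommGroup H]
    [Module k H] [Group Γ] (ρ : Representation k Γ V) {n : ℕ}

/-- The action on the `n`-th power. -/
noncomputable def pw (s : Γ) : (Fin n → V) →ₗ[k] (Fin n → V) :=
  LinearMap.pi fun i => ρ s ∘ₗ LinearMap.proj i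

theorem pw_apply (s : Γ) (x : Fin n → V) : pw ρ s x = fun i => ρ s (x i) := rfl

/-- A piece of a form on the `n`-th power. -/
noncomputable def piece (f : (Fin n → V) [⋀^κ]→ₗ[k] H) (a : κ → Fin n) :
    MultilinearMap k (fun _ : κ => V) H :=
  f.toMultilinearMap.compLinearMap fun l => LinearMap.single k (fun _ : Fin n => V) (a l)

theorem piece_apply (f : (Fin n → V) [⋀^κ]→ₗ[k] H) (a : κ → Fin n) (v : κ → V) :
    piece f a v = f fun l => Pi.single (a l) (v l) := rfl

theorem sum_pieces [Fintype κ] [DecidableEq κ] (f : (Fin n → V) [⋀^κ]→ₗ[k] H)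
    (v : κ → Fin n → V) : f v = ∑ a : κ → Fin n, piece f a fun l => v l (a l) := by
  have h1 : v = fun l => ∑ i : Fin n, Pi.single i (v l i) := by
    funext l
    exact (Finset.univ_sum_single (v l)).symm
  conv_lhs => rw [h1]
  have h2 := f.toMultilinearMap.map_sum (fun (l : κ) (i : Fin n) =>
    (Pi.single i (v l i) : Fin n → V))
  exact h2

theorem single_rho (s : Γ) (i : Fin n) (x : V) :
    (fun l => ρ s ((Pi.single i x : Fin n → V) l)) = Pi.single i (ρ s x) := by
  funext l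
  by_cases h : l = i
  · subst h
    simp
  · simp [h]

end pieces

variable {p : ℕ} [Fact p.Prime] {a : ℕ} {ι : Type} [Fintype ι] {F : ι → Type}
  [∀ i, Field (F i)] [∀ i, NumberField (F i)] [∀ i, IsCMField (F i)]
  {L : Type} [Field L] [NumberField L] [IsGalois ℚ L]

section gamma

variable {π : ∀ i, F i} (hgen : ∀ i, IntermediateField.adjoin ℚ {π i} = ⊤)
    (hw : ∀ i, π i * IsCMField.complexConj (F i) (π i) = (p : F i) ^ a) (hneat : Neat p a π L)
    (hcard : ∀ i, Fintype.card (F i →+* L) = finrank ℚ (F i))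
    {ℓ : ℕ} [Fact ℓ.Prime] {V H Γ : Type} [AddCommGroup V] [Module ℚ_[ℓ] V]
    [FiniteDimensional ℚ_[ℓ] V] [AddCommGroup H] [Module ℚ_[ℓ] H] [FiniteDimensional ℚ_[ℓ] H]
    [Group Γ] (ρ : Representation ℚ_[ℓ] Γ V) (χ : Γ →* ℚ_[ℓ]) (σ : Representation ℚ_[ℓ] Γ H)
    (γ : Γ) (hχ : χ γ = (p : ℚ_[ℓ]) ^ a)
    (hγ : (ρ γ).charpoly = ∏ i, (minpoly ℚ (π i)).map (algebraMap ℚ ℚ_[ℓ]))
    {Q : ℚ[X]} (hQ : (σ γ⁻¹).charpoly = Q.map (algebraMap ℚ ℚ_[ℓ]))
    (hun : ∀ β : ℂ, aeval β Q = 0 → Unrelated (∏ i, minpoly ℚ (π i)) β)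
    {κ : Type} [Fintype κ] [DecidableEq κ] {n r : ℕ}

include hgen hw hneat hcard hχ hγ hQ hun

theorem acts_gamma (f : (Fin n → V) [⋀^κ]→ₗ[ℚ_[ℓ]] H) (hf : IsTateIn ρ χ σ r f) :
    (f ≠ 0 → ∃ m, Fintype.card κ = 2 * m) ∧
    ∀ m, Fintype.card κ = 2 * m →
      ∀ v : κ → Fin n → V, f (fun l i => ρ γ (v l i)) = ((p : ℚ_[ℓ]) ^ a) ^ m • f v := by
  obtain ⟨Δ, hΔ, hf⟩ := hf
  have hp : ∀ b : κ → Fin n, ∀ s ∈ Δ, FixedBy ρ χ σ r (piece f b) s := by
    intro b s hs v
    have h1 : f (fun l i => ρ s ((Pi.single (b l) (v l) : Fin n → V) i)) =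
        χ s ^ r • σ s (f fun l => Pi.single (b l) (v l)) := hf s hs _
    have h2 : (fun (l : κ) (i : Fin n) => ρ s ((Pi.single (b l) (v l) : Fin n → V) i)) =
        fun l => Pi.single (b l) (ρ s (v l)) := funext fun l => single_rho ρ s (b l) (v l)
    rw [h2] at h1
    exact h1
  have key := fun b : κ → Fin n => frob_acts hgen hw hneat hcard ρ χ σ γ hχ hγ hQ hun
    (piece f b) Δ hΔ (hp b)
  constructor
  · intro h0
    by_contra hcon
    apply h0
    ext v
    rw [sum_pieces f v]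
    refine Finset.sum_eq_zero fun b _ => ?_
    have h1 : piece f b = 0 := by
      by_contra h2
      exact hcon ((key b).1 h2)
    rw [h1]
    rfl
  · intro m hm v
    rw [sum_pieces f, sum_pieces f v, Finset.smul_sum]
    refine Finset.sum_congr rfl fun b _ => ?_
    exact (key b).2 m hm fun l => v l (b l)

theorem acts_normal (f : (Fin n → V) [⋀^κ]→ₗ[ℚ_[ℓ]] H) (hf : IsTateIn ρ χ σ r f)
    {m : ℕ} (hm : Fintype.card κ = 2 * m) (s : Γ) (hs : s ∈ Subgroup.normalClosure {γ})
    (v : κ → Fin n → V) : f (fun l i => ρ s (v l i)) = χ s ^ m • f v := by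
  have hconj : ∀ t : Γ, ∀ v : κ → Fin n → V,
      f (fun l i => ρ (t * γ * t⁻¹) (v l i)) = χ (t * γ * t⁻¹) ^ m • f v := by
    intro t v
    let f' : (Fin n → V) [⋀^κ]→ₗ[ℚ_[ℓ]] H :=
      (σ t⁻¹).compAlternatingMap (f.compLinearMap (pw ρ t))
    have hf' : ∀ w, f' w = σ t⁻¹ (f fun l i => ρ t (w l i)) := fun w => rfl
    obtain ⟨Δ, hΔ, hfΔ⟩ := hf
    have h1 : IsTateIn ρ χ σ r f' := by
      refine ⟨Δ.comap (MulAut.conj t).toMonoidHom, finiteIndex_comap _ hΔ, ?_⟩
      intro s hs w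
      have hs' : t * s * t⁻¹ ∈ Δ := hs
      rw [hf', hf']
      have h2 := hfΔ _ hs' (fun l i => ρ t (w l i))
      have h3 : ∀ x : V, ρ (t * s * t⁻¹) (ρ t x) = ρ t (ρ s x) := by
        intro x
        rw [← Module.End.mul_apply, ← map_mul, inv_mul_cancel_right, map_mul, Module.End.mul_apply]
      have h4 : χ (t * s * t⁻¹) = χ s := by
        rw [map_mul, map_mul, mul_comm (χ t), mul_assoc, ← map_mul, mul_inv_cancel, map_one,
          mul_one]
      simp only [h3] at h2
      rw [h2, h4, map_smul]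
      congr 1
      rw [← Module.End.mul_apply, ← Module.End.mul_apply, ← map_mul, ← map_mul]
      congr 2
      group
    have h2 := (acts_gamma hgen hw hneat hcard ρ χ σ γ hχ hγ hQ hun f' h1).2 m hm
      (fun l i => ρ t⁻¹ (v l i))
    rw [hf', hf', ← map_smul] at h2
    have hinj : Function.Injective (σ t⁻¹) := by
      intro x y hxy
      have h3 := congrArg (σ t) hxy
      rw [← Module.End.mul_apply, ← Module.End.mul_apply, ← map_mul, mul_inv_cancel, map_one] at h3
      exact h3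
    have h3 := hinj h2
    have h4 : ∀ x : V, ρ t (ρ γ (ρ t⁻¹ x)) = ρ (t * γ * t⁻¹) x := by
      intro x
      rw [map_mul, map_mul]
      rfl
    have h5 : ∀ x : V, ρ t (ρ t⁻¹ x) = x := by
      intro x
      rw [← Module.End.mul_apply, ← map_mul, mul_inv_cancel, map_one]
      rfl
    simp only [h4, h5] at h3
    rw [h3]
    have h6 : χ (t * γ * t⁻¹) = χ γ := by
      rw [map_mul, map_mul, mul_comm (χ t), mul_assoc, ← map_mul, mul_inv_cancel, map_one,
        mul_one]
    rw [h6, hχ]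
  let K : Subgroup Γ :=
    { carrier := {s | ∀ v : κ → Fin n → V, f (fun l i => ρ s (v l i)) = χ s ^ m • f v}
      one_mem' := by
        intro v
        simp only [map_one, Module.End.one_apply, one_pow, one_smul]
      mul_mem' := by
        intro s t hs ht v
        have h1 := hs (fun l i => ρ t (v l i))
        rw [ht v, smul_smul, ← mul_pow, ← map_mul] at h1
        simp only [map_mul, Module.End.mul_apply] at h1 ⊢
        exact h1
      inv_mem' := by
        intro s hs v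
        have h1 := hs (fun l i => ρ s⁻¹ (v l i))
        have h5 : ∀ x : V, ρ s (ρ s⁻¹ x) = x := by
          intro x
          rw [← Module.End.mul_apply, ← map_mul, mul_inv_cancel, map_one]
          rfl
        simp only [h5] at h1
        rw [h1, smul_smul, ← mul_pow, ← map_mul, inv_mul_cancel, map_one, one_pow, one_smul] }
  have h1 : Subgroup.normalClosure {γ} ≤ K := by
    rw [Subgroup.normalClosure, Subgroup.closure_le]
    intro x hx
    rw [Group.mem_conjugatesOfSet_iff] at hx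
    obtain ⟨y, hy, hyx⟩ := hx
    rw [Set.mem_singleton_iff] at hy
    subst hy
    obtain ⟨t, ht⟩ := isConj_iff.1 hyx
    rw [← ht]
    exact hconj t
  exact h1 hs v

end gamma

section commute

variable {π : ∀ i, F i} (hgen : ∀ i, IntermediateField.adjoin ℚ {π i} = ⊤)
    (hw : ∀ i, π i * IsCMField.complexConj (F i) (π i) = (p : F i) ^ a) (hneat : Neat p a π L)
    (hcard : ∀ i, Fintype.card (F i →+* L) = finrank ℚ (F i))
    {ℓ : ℕ} [Fact ℓ.Prime] {V Γ : Type} [AddCommGroup V] [Module ℚ_[ℓ] V]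
    [FiniteDimensional ℚ_[ℓ] V] [Group Γ] (ρ : Representation ℚ_[ℓ] Γ V) (γ : Γ)
    (hγ : (ρ γ).charpoly = ∏ i, (minpoly ℚ (π i)).map (algebraMap ℚ ℚ_[ℓ]))

include hgen hw hneat hcard hγ

/-- An endomorphism that commutes with a subgroup of finite index of the normal closure of the
Frobenius element commutes with a subgroup of finite index. -/
theorem exists_commuting (Δ' : Subgroup (Subgroup.normalClosure {γ})) (hΔ' : Δ'.FiniteIndex)
    (c : End ℚ_[ℓ] V) (hc : ∀ s ∈ Δ', ρ s * c = c * ρ s) :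
    ∃ Δ : Subgroup Γ, Δ.FiniteIndex ∧ ∀ s ∈ Δ, ρ s * c = c * ρ s := by
  classical
  let G : Γ → End ℚ_[ℓ] V := fun t => ρ t * c * ρ t⁻¹
  have hfin : (Set.range G).Finite := by
    refine (finite_commuting hgen hw hneat hcard ρ γ hγ c.charpoly).subset ?_
    rintro _ ⟨t, rfl⟩
    constructor
    · let x : Subgroup.normalClosure {γ} := ⟨t⁻¹ * γ * t, by
        have h1 := (Subgroup.normalClosure_normal (s := {γ})).conj_mem γ
          (Subgroup.subset_normalClosure (Set.mem_singleton γ)) t⁻¹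
        rwa [inv_inv] at h1⟩
      obtain ⟨N, hN, -, hN'⟩ := Subgroup.exists_pow_mem_of_index_ne_zero hΔ'.index_ne_zero x
      refine ⟨N, hN, ?_⟩
      have h1 := hc _ hN'
      have h2 : (((x ^ N : Subgroup.normalClosure {γ}) : Γ)) = t⁻¹ * γ ^ N * t := by
        rw [Subgroup.coe_pow]
        have h3 := conj_pow (i := N) (a := t⁻¹) (b := γ)
        rw [inv_inv] at h3
        exact h3
      rw [h2] at h1
      have h4 : ρ (γ ^ N) = ρ t * ρ (t⁻¹ * γ ^ N * t) * ρ t⁻¹ := by
        rw [← map_mul, ← map_mul]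
        congr 1
        group
      have h5 : ρ t⁻¹ * ρ t = 1 := by rw [← map_mul, inv_mul_cancel, map_one]
      simp only [G]
      rw [h4]
      calc ρ t * ρ (t⁻¹ * γ ^ N * t) * ρ t⁻¹ * (ρ t * c * ρ t⁻¹)
          = ρ t * ρ (t⁻¹ * γ ^ N * t) * (ρ t⁻¹ * ρ t) * c * ρ t⁻¹ := by
            simp only [mul_assoc]
        _ = ρ t * (ρ (t⁻¹ * γ ^ N * t) * c) * ρ t⁻¹ := by
            rw [h5]
            simp only [mul_assoc, one_mul]
        _ = ρ t * (c * ρ (t⁻¹ * γ ^ N * t)) * ρ t⁻¹ := by rw [h1]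
        _ = ρ t * c * (ρ t⁻¹ * ρ t) * ρ (t⁻¹ * γ ^ N * t) * ρ t⁻¹ := by
            rw [h5]
            simp only [mul_assoc, one_mul]
        _ = _ := by simp only [mul_assoc]
    · let e : V ≃ₗ[ℚ_[ℓ]] V := LinearEquiv.ofLinearMap (ρ t) (ρ t⁻¹)
        (by
          change ρ t * ρ t⁻¹ = 1
          rw [← map_mul, mul_inv_cancel, map_one])
        (by
          change ρ t⁻¹ * ρ t = 1
          rw [← map_mul, inv_mul_cancel, map_one])
      have h1 := LinearEquiv.charpoly_conj e c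
      exact h1
  let Δ : Subgroup Γ :=
    { carrier := {s | ρ s * c = c * ρ s}
      one_mem' := by
        change ρ 1 * c = c * ρ 1
        rw [map_one, one_mul, mul_one]
      mul_mem' := by
        intro s t hs ht
        change ρ (s * t) * c = c * ρ (s * t)
        have hs' : ρ s * c = c * ρ s := hs
        have ht' : ρ t * c = c * ρ t := ht
        rw [map_mul, mul_assoc, ht', ← mul_assoc, hs', mul_assoc]
      inv_mem' := by
        intro s hs
        change ρ s⁻¹ * c = c * ρ s⁻¹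
        have hs' : ρ s * c = c * ρ s := hs
        have h5 : ρ s⁻¹ * ρ s = 1 := by rw [← map_mul, inv_mul_cancel, map_one]
        have h6 : ρ s * ρ s⁻¹ = 1 := by rw [← map_mul, mul_inv_cancel, map_one]
        calc ρ s⁻¹ * c = ρ s⁻¹ * c * (ρ s * ρ s⁻¹) := by rw [h6, mul_one]
          _ = ρ s⁻¹ * (c * ρ s) * ρ s⁻¹ := by simp only [mul_assoc]
          _ = ρ s⁻¹ * (ρ s * c) * ρ s⁻¹ := by rw [hs']
          _ = (ρ s⁻¹ * ρ s) * c * ρ s⁻¹ := by simp only [mul_assoc]
          _ = c * ρ s⁻¹ := by rw [h5, one_mul] }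
  refine ⟨Δ, ?_, fun s hs => hs⟩
  have hG : ∀ s t : Γ, G s = G t → s⁻¹ * t ∈ Δ := by
    intro s t hst
    have h5 : ρ s⁻¹ * ρ s = 1 := by rw [← map_mul, inv_mul_cancel, map_one]
    have h6 : ρ t⁻¹ * ρ t = 1 := by rw [← map_mul, inv_mul_cancel, map_one]
    change ρ (s⁻¹ * t) * c = c * ρ (s⁻¹ * t)
    have h7 : ρ s * c * ρ s⁻¹ = ρ t * c * ρ t⁻¹ := hst
    calc ρ (s⁻¹ * t) * c = ρ s⁻¹ * (ρ t * c * ρ t⁻¹) * ρ t := by
          rw [map_mul]
          simp only [mul_assoc]
          rw [h6, mul_one]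
      _ = ρ s⁻¹ * (ρ s * c * ρ s⁻¹) * ρ t := by rw [h7]
      _ = (ρ s⁻¹ * ρ s) * c * (ρ s⁻¹ * ρ t) := by simp only [mul_assoc]
      _ = c * ρ (s⁻¹ * t) := by rw [h5, one_mul, map_mul]
  have hFR : Finite (Set.range G) := hfin.to_subtype
  have hq : Finite (Γ ⧸ Δ) := by
    refine Finite.of_injective (fun x : Γ ⧸ Δ => (⟨G x.out, ⟨x.out, rfl⟩⟩ : Set.range G)) ?_
    intro x y hxy
    have h1 := hG _ _ (congrArg Subtype.val hxy)
    have h2 := QuotientGroup.eq.2 h1
    rw [QuotientGroup.out_eq', QuotientGroup.out_eq'] at h2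
    exact h2
  exact Subgroup.finiteIndex_of_finite_quotient

end commute

end Pool.Agent.K6.H79.TX
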