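import Mathlib

/-!
# Frobenius elements of abelian varieties: definitions
-/

set_option autoImplicit false

namespace Pool.Agent.K6.H79.TX

open Polynomial

/-- `s` acts on `V` as a Frobenius element for the field with `q` elements: `χ s = q`, and the minimal
polynomial of `ρ s` is the rational polynomial `R`, which has no multiple roots, and whose complex
roots `α` satisfy `α * conj α = q`. -/
structure IsWeilAt {ℓ : ℕ} [Fact ℓ.Prime] {V Γ : Type} [AddCommGroup V] [Module ℚ_[ℓ] V] [Group Γ]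
    (ρ : Representation ℚ_[ℓ] Γ V) (χ : Γ →* ℚ_[ℓ]) (s : Γ) (q : ℕ) (R : ℚ[X]) : Prop where
  primePow : IsPrimePow q
  cyclotomic : χ s = (q : ℚ_[ℓ])
  squarefree : Squarefree R
  minpoly_eq : minpoly ℚ_[ℓ] (ρ s) = R.map (algebraMap ℚ ℚ_[ℓ])
  weil : ∀ α : ℂ, aeval α R = 0 → α * (starRingEnd ℂ) α = q

/-- No product of an odd number of roots of `R` is, up to a root of unity, a half-integral power of
`q`. -/
def NoHalfPowers (R : ℚ[X]) (q : ℕ) : Prop :=
  ∀ (n : ℕ) (x : Fin n → ℂ), Odd n → (∀ l, aeval (x l) R = 0) → ∀ M : ℕ, 0 < M →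
    (∏ l, x l) ^ (2 * M) ≠ (q : ℂ) ^ (n * M)

/-- The matrix coefficients of the representation are continuous. -/
def ContCoef {ℓ : ℕ} [Fact ℓ.Prime] {V Γ : Type} [AddCommGroup V] [Module ℚ_[ℓ] V] [Group Γ]
    [TopologicalSpace Γ] (ρ : Representation ℚ_[ℓ] Γ V) : Prop :=
  ∀ (x : V) (l : V →ₗ[ℚ_[ℓ]] ℚ_[ℓ]), Continuous fun s => l (ρ s x)

end Pool.Agent.K6.H79.TX
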