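import Mathlib
import Pool.Agent.K6.H79.TX.Dense

/-!
# Dense sets of Frobenius elements
-/

set_option autoImplicit false
set_option linter.unusedSectionVars false

namespace Pool.Agent.K6.H79.TX

open Module Polynomial Pool.Agent.H204R3.GP Pool.Agent.H204R3.SP
  Pool.Agent.K6.H79.MU TensorProduct Topology Filter

section kernel

variable {ℓ : ℕ} [Fact ℓ.Prime] {E : Type} [AddCommGroup E] [Module ℚ_[ℓ] E]
  [FiniteDimensional ℚ_[ℓ] E] {Γ : Type} [Group Γ] [TopologicalSpace Γ] [IsTopologicalGroup Γ]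
  [CompactSpace Γ]

/-- If all elements act with finite order then a subgroup of finite index acts trivially. -/
theorem open_kernel (f : Γ →* End ℚ_[ℓ] E) (hc : ContCoef (f : Representation ℚ_[ℓ] Γ E))
    (hpow : ∀ γ, ∃ M : ℕ, 0 < M ∧ f γ ^ M = 1) : f.ker.FiniteIndex := by
  let b := Module.finBasis ℚ_[ℓ] E
  let Mt : Γ → Matrix (Fin (finrank ℚ_[ℓ] E)) (Fin (finrank ℚ_[ℓ] E)) ℚ_[ℓ] := fun γ =>
    LinearMap.toMatrixAlgEquiv b (f γ)
  have hcont : ∀ i j, Continuous fun γ => Mt γ i j := by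
    intro i j
    refine (hc (b j) (b.coord i)).congr fun γ => ?_
    show _ = LinearMap.toMatrixAlgEquiv b (f γ) i j
    rw [LinearMap.toMatrixAlgEquiv_apply]
    rfl
  have hMt1 : Mt 1 = 1 := by
    show LinearMap.toMatrixAlgEquiv b (f 1) = 1
    rw [map_one, map_one]
  have hε : (0 : ℝ) < (ℓ : ℝ) ^ (-2 : ℤ) := by
    have : 0 < ℓ := (Fact.out : ℓ.Prime).pos
    positivity
  have hnhds : ∀ᶠ γ in 𝓝 (1 : Γ), ∀ i j, ‖(Mt γ - 1) i j‖ ≤ (ℓ : ℝ) ^ (-2 : ℤ) := by
    rw [Filter.eventually_all]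
    intro i
    rw [Filter.eventually_all]
    intro j
    have h1 : Continuous fun γ => ‖(Mt γ - 1) i j‖ := by
      have h2 : (fun γ => ‖(Mt γ - 1) i j‖) = fun γ => ‖Mt γ i j - (1 : Matrix _ _ ℚ_[ℓ]) i j‖ := rfl
      rw [h2]
      exact ((hcont i j).sub continuous_const).norm
    have h2 : ‖(Mt 1 - 1) i j‖ < (ℓ : ℝ) ^ (-2 : ℤ) := by
      rw [hMt1, sub_self, Matrix.zero_apply, norm_zero]
      exact hε
    exact (h1.continuousAt.eventually_lt continuousAt_const h2).mono fun γ h => h.le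
  have hopen : IsOpen (f.ker : Set Γ) := by
    refine Subgroup.isOpen_of_mem_nhds _ (g := 1) ?_
    refine mem_of_superset hnhds fun γ hγ => ?_
    show f γ = 1
    obtain ⟨M, hM, hM1⟩ := hpow γ
    have h1 : (1 + (Mt γ - 1)) ^ M = 1 := by
      rw [add_sub_cancel]
      show (LinearMap.toMatrixAlgEquiv b (f γ)) ^ M = 1
      rw [← map_pow, hM1, map_one]
    have h2 := Pool.Agent.Y220.RM.unip (Mt γ - 1) hγ hM h1
    have h3 : LinearMap.toMatrixAlgEquiv b (f γ) = LinearMap.toMatrixAlgEquiv b 1 := by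
      rw [map_one]
      exact sub_eq_zero.1 h2
    exact (LinearMap.toMatrixAlgEquiv b).injective h3
  have hfi : Finite (Γ ⧸ f.ker) := Subgroup.quotient_finite_of_isOpen _ hopen
  exact Subgroup.finiteIndex_of_finite_quotient

end kernel

section forms

variable {ℓ : ℕ} [Fact ℓ.Prime] {V : Type} [AddCommGroup V] [Module ℚ_[ℓ] V]
  [FiniteDimensional ℚ_[ℓ] V] {Γ : Type} [Group Γ] [TopologicalSpace Γ]
  {ρ : Representation ℚ_[ℓ] Γ V} {κ : Type} [Fintype κ] [DecidableEq κ]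

theorem cont_form (hρ : ContCoef ρ) (g : MultilinearMap ℚ_[ℓ] (fun _ : κ => V) ℚ_[ℓ]) (v : κ → V) :
    Continuous fun s => g fun l => ρ s (v l) := by
  classical
  let b := Module.finBasis ℚ_[ℓ] V
  have h1 : ∀ s, (g fun l => ρ s (v l)) = ∑ I : κ → Fin (finrank ℚ_[ℓ] V),
      (∏ l, b.coord (I l) (ρ s (v l))) * g fun l => b (I l) := by
    intro s
    have h2 : (fun l => ρ s (v l)) = fun l => ∑ i, b.coord i (ρ s (v l)) • b i := by
      funext l
      exact (b.sum_repr (ρ s (v l))).symm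
    rw [h2, g.map_sum]
    refine Finset.sum_congr rfl fun I _ => ?_
    rw [MultilinearMap.map_smul_univ, smul_eq_mul]
  simp only [h1]
  refine continuous_finsetSum _ fun I _ => Continuous.mul ?_ continuous_const
  exact continuous_finsetProd _ fun l _ => hρ (v l) (b.coord (I l))

end forms

section main

variable {ℓ : ℕ} [Fact ℓ.Prime] {V H Γ : Type} [AddCommGroup V] [Module ℚ_[ℓ] V]
  [FiniteDimensional ℚ_[ℓ] V] [AddCommGroup H] [Module ℚ_[ℓ] H] [FiniteDimensional ℚ_[ℓ] H]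
  [Group Γ] [TopologicalSpace Γ] [IsTopologicalGroup Γ] {ρ : Representation ℚ_[ℓ] Γ V}
  {χ : Γ →* ℚ_[ℓ]} {σ : Representation ℚ_[ℓ] Γ H} {κ : Type} [Fintype κ] [DecidableEq κ]

/-- At the Frobenius element `s` the eigenvalues of `H` are unrelated to those of `V`. -/
def GoodAt (ρ : Representation ℚ_[ℓ] Γ V) (χ : Γ →* ℚ_[ℓ]) (σ : Representation ℚ_[ℓ] Γ H)
    (s : Γ) : Prop :=
  ∃ (q : ℕ) (R Q : ℚ[X]), IsWeilAt ρ χ s q R ∧
    (σ s⁻¹).charpoly = Q.map (algebraMap ℚ ℚ_[ℓ]) ∧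
    ∀ β : ℂ, aeval β Q = 0 → Unrelated R β

/-- The twisted conjugate of a form. -/
noncomputable def transl (ρ : Representation ℚ_[ℓ] Γ V) (σ : Representation ℚ_[ℓ] Γ H)
    (φ : MultilinearMap ℚ_[ℓ] (fun _ : κ => V) H) (t : Γ) :
    MultilinearMap ℚ_[ℓ] (fun _ : κ => V) H :=
  (σ t⁻¹).compMultilinearMap (φ.compLinearMap fun _ => ρ t)

theorem transl_apply (φ : MultilinearMap ℚ_[ℓ] (fun _ : κ => V) H) (t : Γ) (v : κ → V) :
    transl ρ σ φ t v = σ t⁻¹ (φ fun l => ρ t (v l)) := rfl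

theorem transl_fixed {r : ℕ} {φ : MultilinearMap ℚ_[ℓ] (fun _ : κ => V) H} {Δ : Subgroup Γ}
    (hφ : ∀ s ∈ Δ, FixedBy ρ χ σ r φ s) (t : Γ) :
    ∀ s ∈ Δ.comap (MulAut.conj t).toMonoidHom, FixedBy ρ χ σ r (transl ρ σ φ t) s := by
  intro s hs w
  have hs' : t * s * t⁻¹ ∈ Δ := hs
  rw [transl_apply, transl_apply]
  have h2 := hφ _ hs' (fun l => ρ t (w l))
  have h3 : ∀ x : V, ρ (t * s * t⁻¹) (ρ t x) = ρ t (ρ s x) := by
    intro x
    rw [← Module.End.mul_apply, ← map_mul, inv_mul_cancel_right, map_mul, Module.End.mul_apply]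
  have h4 : χ (t * s * t⁻¹) = χ s := by
    rw [map_mul, map_mul, mul_comm (χ t), mul_assoc, ← map_mul, mul_inv_cancel, map_one,
      mul_one]
  simp only [h3] at h2
  rw [h2, h4, map_smul]
  congr 1
  rw [← Module.End.mul_apply, ← Module.End.mul_apply, ← map_mul, ← map_mul]
  congr 2
  group

theorem closure_step (hρ : ContCoef ρ) (hχ : Continuous χ) {S : Set Γ} (hS : Dense S)
    (hgood : ∀ s ∈ S, GoodAt ρ χ σ s) {r m : ℕ} (hm : Fintype.card κ = 2 * m)
    (φ : MultilinearMap ℚ_[ℓ] (fun _ : κ => V) H) (Δ : Subgroup Γ) (hΔ : Δ.FiniteIndex)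
    (hφ : ∀ t ∈ Δ, FixedBy ρ χ σ r φ t) (s : Γ) (v : κ → V) :
    φ (fun l => ρ (s ^ (2 * (2 * finrank ℚ_[ℓ] V ^ Fintype.card κ).factorial)) (v l)) =
      χ s ^ (2 * m * (2 * finrank ℚ_[ℓ] V ^ Fintype.card κ).factorial) • φ v := by
  set M₀ := (2 * finrank ℚ_[ℓ] V ^ Fintype.card κ).factorial with hM₀
  rw [← sub_eq_zero]
  refine (Module.forall_dual_apply_eq_zero_iff ℚ_[ℓ] _).1 fun l => ?_
  rw [map_sub, sub_eq_zero, map_smul, smul_eq_mul]
  have h1 : Continuous fun s : Γ => l (φ fun i => ρ (s ^ (2 * M₀)) (v i)) :=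
    (cont_form hρ (l.compMultilinearMap φ) v).comp (continuous_pow (2 * M₀))
  have h2 : Continuous fun s : Γ => χ s ^ (2 * m * M₀) * l (φ v) :=
    (hχ.pow _).mul continuous_const
  have h3 := Continuous.ext_on hS h1 h2 (fun s hs => by
    obtain ⟨q, R, Q, hw, hQ, hun⟩ := hgood s hs
    have h4 := (dense_frob hw σ hQ hun φ Δ hΔ hφ).2 v
    rw [← hM₀] at h4
    change l (φ fun i => ρ (s ^ (2 * M₀)) (v i)) = χ s ^ (2 * m * M₀) * l (φ v)
    rw [h4, map_smul, hw.cyclotomic, hm]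
    rfl)
  exact congrFun h3 s

/-- The functionals on a space of forms. -/
theorem cont_space {G : Γ → MultilinearMap ℚ_[ℓ] (fun _ : κ => V) H}
    (hG : ∀ (v : κ → V) (l : H →ₗ[ℚ_[ℓ]] ℚ_[ℓ]), Continuous fun s => l (G s v))
    (c : MultilinearMap ℚ_[ℓ] (fun _ : κ => V) H →ₗ[ℚ_[ℓ]] ℚ_[ℓ]) :
    Continuous fun s => c (G s) := by
  let ev : (κ → V) → (H →ₗ[ℚ_[ℓ]] ℚ_[ℓ]) →
      Dual ℚ_[ℓ] (MultilinearMap ℚ_[ℓ] (fun _ : κ => V) H) := fun v l =>
    { toFun := fun g => l (g v)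
      map_add' := fun g g' => by rw [MultilinearMap.add_apply, map_add]
      map_smul' := fun a g => by rw [MultilinearMap.smul_apply, map_smul, RingHom.id_apply] }
  let Φ : Submodule ℚ_[ℓ] (Dual ℚ_[ℓ] (MultilinearMap ℚ_[ℓ] (fun _ : κ => V) H)) :=
    Submodule.span ℚ_[ℓ] {x | ∃ v l, x = ev v l}
  have h1 : Φ.dualCoannihilator = ⊥ := by
    rw [eq_bot_iff]
    intro g hg
    rw [Submodule.mem_bot]
    ext v
    refine (Module.forall_dual_apply_eq_zero_iff ℚ_[ℓ] _).1 fun l => ?_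
    exact (Submodule.mem_dualCoannihilator g).1 hg (ev v l) (Submodule.subset_span ⟨v, l, rfl⟩)
  have h2 : Φ = ⊤ := by
    have h3 := Subspace.dualCoannihilator_dualAnnihilator_eq (W := Φ)
    rw [h1, Submodule.dualAnnihilator_bot] at h3
    exact h3.symm
  have h3 : c ∈ Φ := by
    rw [h2]
    trivial
  induction h3 using Submodule.span_induction with
  | mem c hc =>
    obtain ⟨v, l, rfl⟩ := hc
    exact hG v l
  | zero => exact continuous_const
  | add c d _ _ hc hd => exact hc.add hd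
  | smul a c _ hc => exact continuous_const.mul hc

/-- **A subgroup of finite index acts by a power of the cyclotomic character.** -/
theorem fixed_open [CompactSpace Γ] (hρ : ContCoef ρ) (hχ : Continuous χ) {S : Set Γ}
    (hS : Dense S) (hgood : ∀ s ∈ S, GoodAt ρ χ σ s) {r m : ℕ} (hm : Fintype.card κ = 2 * m)
    (φ : MultilinearMap ℚ_[ℓ] (fun _ : κ => V) H) (Δ : Subgroup Γ) (hΔ : Δ.FiniteIndex)
    (hφ : ∀ t ∈ Δ, FixedBy ρ χ σ r φ t) :
    ∃ U : Subgroup Γ, U.FiniteIndex ∧ ∀ u ∈ U, ∀ v : κ → V,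
      φ (fun l => ρ u (v l)) = χ u ^ m • φ v := by
  classical
  set M₀ := (2 * finrank ℚ_[ℓ] V ^ Fintype.card κ).factorial with hM₀
  have hM₀pos : 0 < M₀ := Nat.factorial_pos _
  -- the translates
  have h1 : ∀ (t s : Γ) (v : κ → V), φ (fun l => ρ t (ρ (s ^ (2 * M₀)) (v l))) =
      χ s ^ (2 * m * M₀) • φ fun l => ρ t (v l) := by
    intro t s v
    have h2 := closure_step hρ hχ hS hgood hm (transl ρ σ φ t)
      (Δ.comap (MulAut.conj t).toMonoidHom) (finiteIndex_comap _ hΔ) (transl_fixed hφ t) s v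
    rw [← hM₀, transl_apply, transl_apply, ← map_smul] at h2
    have hinj : Function.Injective (σ t⁻¹) := by
      intro x y hxy
      have h3 := congrArg (σ t) hxy
      rw [← Module.End.mul_apply, ← Module.End.mul_apply, ← map_mul, mul_inv_cancel, map_one] at h3
      exact h3
    exact hinj h2
  -- the representation on the forms
  let Rg : Γ →* End ℚ_[ℓ] (MultilinearMap ℚ_[ℓ] (fun _ : κ => V) H) :=
    { toFun := fun s => χ s ^ m • MultilinearMap.compLinearMapₗ (fun _ => ρ s⁻¹)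
      map_one' := by
        ext g v
        simp only [map_one, one_pow, one_smul, inv_one]
        rfl
      map_mul' := by
        intro s t
        ext g v
        change χ (s * t) ^ m • g (fun l => ρ (s * t)⁻¹ (v l)) =
          χ s ^ m • (χ t ^ m • g (fun l => ρ t⁻¹ (ρ s⁻¹ (v l))))
        have h2 : ∀ x : V, ρ t⁻¹ (ρ s⁻¹ x) = ρ (s * t)⁻¹ x := by
          intro x
          rw [mul_inv_rev, map_mul]
          rfl
        simp only [h2]
        rw [smul_smul, ← mul_pow, ← map_mul] }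
  have hRg : ∀ s g v, Rg s g v = χ s ^ m • g fun l => ρ s⁻¹ (v l) := fun s g v => rfl
  let W : Submodule ℚ_[ℓ] (MultilinearMap ℚ_[ℓ] (fun _ : κ => V) H) :=
    { carrier := {g | ∀ (t s : Γ) (v : κ → V), g (fun l => ρ t (ρ (s ^ (2 * M₀)) (v l))) =
        χ s ^ (2 * m * M₀) • g fun l => ρ t (v l)}
      add_mem' := by
        intro g g' hg hg' t s v
        rw [MultilinearMap.add_apply, MultilinearMap.add_apply, hg, hg', smul_add]
      zero_mem' := by
        intro t s v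
        simp
      smul_mem' := by
        intro a g hg t s v
        rw [MultilinearMap.smul_apply, MultilinearMap.smul_apply, hg, smul_comm] }
  have hWst : ∀ u, ∀ g ∈ W, Rg u g ∈ W := by
    intro u g hg t s v
    rw [hRg, hRg]
    have h2 : ∀ x : V, ρ u⁻¹ (ρ t x) = ρ (u⁻¹ * t) x := by
      intro x
      rw [map_mul]
      rfl
    simp only [h2]
    rw [hg (u⁻¹ * t) s v, smul_comm]
  let f : Γ →* End ℚ_[ℓ] W :=
    { toFun := fun γ => (Rg γ).restrict (hWst γ)
      map_one' := by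
        refine LinearMap.ext fun X => Subtype.ext ?_
        rw [LinearMap.coe_restrict_apply, map_one]
        rfl
      map_mul' := fun γ δ => by
        refine LinearMap.ext fun X => Subtype.ext ?_
        rw [LinearMap.coe_restrict_apply, Module.End.mul_apply, LinearMap.coe_restrict_apply,
          LinearMap.coe_restrict_apply, map_mul]
        rfl }
  have hfker := open_kernel f (by
    intro x c
    obtain ⟨c', hc'⟩ := LinearMap.exists_extend c
    have h2 : ∀ s, c (f s x) = c' (Rg s x) := by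
      intro s
      rw [← hc']
      rfl
    have h3 : Continuous fun s => c' (Rg s (x : MultilinearMap ℚ_[ℓ] (fun _ : κ => V) H)) := by
      refine cont_space (fun v l => ?_) c'
      have h4 : ∀ s, l (Rg s (x : MultilinearMap ℚ_[ℓ] (fun _ : κ => V) H) v) =
          χ s ^ m * (l.compMultilinearMap (x : MultilinearMap ℚ_[ℓ] (fun _ : κ => V) H))
            fun i => ρ s⁻¹ (v i) := by
        intro s
        rw [hRg, map_smul]
        rfl
      simp only [h4]
      exact (hχ.pow m).mul ((cont_form hρ _ v).comp continuous_inv)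
    exact h3.congr fun s => (h2 s).symm) (fun γ => ⟨2 * M₀, by omega, by
      rw [← map_pow]
      refine LinearMap.ext fun X => Subtype.ext ?_
      change Rg (γ ^ (2 * M₀)) X = X
      ext v
      rw [hRg]
      have h2 := X.2 1 γ⁻¹ v
      simp only [map_one, Module.End.one_apply] at h2
      rw [← inv_pow, h2, smul_smul, map_pow, ← pow_mul]
      have h3 : χ γ ^ (2 * M₀ * m) * χ γ⁻¹ ^ (2 * m * M₀) = 1 := by
        have h4 : 2 * M₀ * m = 2 * m * M₀ := by ring
        rw [h4, ← mul_pow, ← map_mul, mul_inv_cancel, map_one, one_pow]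
      rw [h3, one_smul]⟩)
  refine ⟨f.ker, hfker, fun u hu v => ?_⟩
  have h2 : f u = 1 := hu
  have h3 : Rg u φ = φ := congrArg Subtype.val (LinearMap.congr_fun h2 (⟨φ, h1⟩ : W))
  have h4 := congrArg (fun g : MultilinearMap ℚ_[ℓ] (fun _ : κ => V) H => g fun l => ρ u (v l)) h3
  change Rg u φ (fun l => ρ u (v l)) = φ (fun l => ρ u (v l)) at h4
  rw [hRg] at h4
  have h5 : ∀ x : V, ρ u⁻¹ (ρ u x) = x := by
    intro x
    rw [← Module.End.mul_apply, ← map_mul, inv_mul_cancel, map_one]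
    rfl
  simp only [h5] at h4
  exact h4.symm

end main

end Pool.Agent.K6.H79.TX
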