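import Mathlib
import Pool.Agent.K6.H79.TX.Defs
import Pool.Agent.K6.H79.TX.Weil

/-!
# Varieties which are unrelated at many places: definitions
-/

set_option autoImplicit false

namespace Pool.Agent.K6.H79.TX

open Polynomial Pool.Agent.K6.H79.MU Pool.Agent.H204R3.GP

variable {ℓ : ℕ} [Fact ℓ.Prime] {V Γ : Type} [AddCommGroup V] [Module ℚ_[ℓ] V] [Group Γ]
  {H : ℕ → Type} [∀ j, AddCommGroup (H j)] [∀ j, Module ℚ_[ℓ] (H j)]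
  [∀ j, FiniteDimensional ℚ_[ℓ] (H j)]

/-- `s` is a Frobenius element at a place where the eigenvalues of `X` are unrelated to those of
`A`. -/
def GoodPlace (ρ : Representation ℚ_[ℓ] Γ V) (χ : Γ →* ℚ_[ℓ])
    (σ : ∀ j, Representation ℚ_[ℓ] Γ (H j)) (s : Γ) : Prop :=
  ∃ (q : ℕ) (R : ℚ[X]), IsWeilAt ρ χ s q R ∧ UnrelatedAt σ s R

/-- `s` is a Frobenius element at such a place, and no product of an odd number of eigenvalues of `A` is,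
up to a root of unity, a half-integral power of `q`. -/
def OddPlace (ρ : Representation ℚ_[ℓ] Γ V) (χ : Γ →* ℚ_[ℓ])
    (σ : ∀ j, Representation ℚ_[ℓ] Γ (H j)) (s : Γ) : Prop :=
  ∃ (q : ℕ) (R : ℚ[X]), IsWeilAt ρ χ s q R ∧ UnrelatedAt σ s R ∧ NoHalfPowers R q

omit [∀ j, FiniteDimensional ℚ_[ℓ] (H j)] in
/-- The conjecture of Tate for `A ^ n`. -/
def TateForPower (ρ : Representation ℚ_[ℓ] Γ V) (χ : Γ →* ℚ_[ℓ]) (n : ℕ)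
    (CA : ∀ m : ℕ, Set ((Fin n → V) [⋀^Fin m × Fin 2]→ₗ[ℚ_[ℓ]] ℚ_[ℓ])) : Prop :=
  ∀ (m : ℕ) (g : (Fin n → V) [⋀^Fin m × Fin 2]→ₗ[ℚ_[ℓ]] ℚ_[ℓ]), IsTateClass ρ χ m g →
    g ∈ Submodule.span ℚ_[ℓ] (CA m)

/-- The class `e₀` of `X` in `H 0` and the restriction `ε` to a point `x` of `X`; cycles on `A ^ n × X`
can be restricted to `A ^ n × {x}`. -/
structure HasPoint (σ : ∀ j, Representation ℚ_[ℓ] Γ (H j))
    (CA : ∀ n m : ℕ, Set ((Fin n → V) [⋀^Fin m × Fin 2]→ₗ[ℚ_[ℓ]] ℚ_[ℓ]))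
    (C : ∀ n i j : ℕ, Set ((Fin n → V) [⋀^Fin i]→ₗ[ℚ_[ℓ]] H j)) (e₀ : H 0)
    (ε : H 0 →ₗ[ℚ_[ℓ]] ℚ_[ℓ]) : Prop where
  unit : ∀ s, σ 0 s e₀ = e₀
  point : ε e₀ = 1
  restriction : ∀ n m : ℕ, ∀ f ∈ C n (2 * m) 0, ∀ (e : Fin m × Fin 2 ≃ Fin (2 * m))
    (g : (Fin n → V) [⋀^Fin m × Fin 2]→ₗ[ℚ_[ℓ]] ℚ_[ℓ]),
    (∀ v, g v = ε (f fun l => v (e.symm l))) → g ∈ Submodule.span ℚ_[ℓ] (CA n m)

end Pool.Agent.K6.H79.TX
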