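import Mathlib
import Pool.Agent.K6.H79.TX.Open
import Pool.Agent.K6.H79.TX.Defs2

/-!
# The conjecture of Tate for `A ^ n × X`, for varieties which are unrelated at many places
-/

set_option autoImplicit false
set_option linter.unusedSectionVars false

namespace Pool.Agent.K6.H79.TX

open Module Polynomial Pool.Agent.H204R3.GP Pool.Agent.H204R3.SP
  Pool.Agent.K6.H79.MU TensorProduct

section assemble

variable {ℓ : ℕ} [Fact ℓ.Prime] {V H : Type} [AddCommGroup V] [Module ℚ_[ℓ] V]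
  [AddCommGroup H] [Module ℚ_[ℓ] H] [FiniteDimensional ℚ_[ℓ] H] {n m : ℕ}

/-- The product of a form and a vector. -/
noncomputable def pr (e : Fin m × Fin 2 ≃ Fin (2 * m)) (z : H) :
    ((Fin n → V) [⋀^Fin m × Fin 2]→ₗ[ℚ_[ℓ]] ℚ_[ℓ]) →ₗ[ℚ_[ℓ]]
      ((Fin n → V) [⋀^Fin (2 * m)]→ₗ[ℚ_[ℓ]] H) where
  toFun g := (LinearMap.toSpanSingleton ℚ_[ℓ] H z).compAlternatingMap (g.domDomCongr e)
  map_add' := by
    intro g g'
    ext v
    simp
  map_smul' := by
    intro c g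
    ext v
    simp

theorem pr_apply (e : Fin m × Fin 2 ≃ Fin (2 * m)) (z : H)
    (g : (Fin n → V) [⋀^Fin m × Fin 2]→ₗ[ℚ_[ℓ]] ℚ_[ℓ]) (v : Fin (2 * m) → Fin n → V) :
    (pr (ℓ := ℓ) (V := V) (n := n) e z) g v = g (fun x => v (e x)) • z := rfl

theorem assemble {CA : Set ((Fin n → V) [⋀^Fin m × Fin 2]→ₗ[ℚ_[ℓ]] ℚ_[ℓ])} {CX : Set H}
    {C : Set ((Fin n → V) [⋀^Fin (2 * m)]→ₗ[ℚ_[ℓ]] H)} (e : Fin m × Fin 2 ≃ Fin (2 * m))
    (hprod : ∀ g ∈ CA, ∀ z ∈ CX,
      ∀ (f : (Fin n → V) [⋀^Fin (2 * m)]→ₗ[ℚ_[ℓ]] H), (∀ v, f v = g (fun l => v (e l)) • z) → f ∈ C)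
    (f : (Fin n → V) [⋀^Fin (2 * m)]→ₗ[ℚ_[ℓ]] H) (hval : ∀ v, f v ∈ Submodule.span ℚ_[ℓ] CX)
    (hcomp : ∀ l : H →ₗ[ℚ_[ℓ]] ℚ_[ℓ],
      (l.compAlternatingMap f).domDomCongr e.symm ∈ Submodule.span ℚ_[ℓ] CA) :
    f ∈ Submodule.span ℚ_[ℓ] C := by
  classical
  obtain ⟨B, hBX, hBs, hBli⟩ := exists_linearIndependent ℚ_[ℓ] CX
  have hBfin : Finite B := hBli.finite
  have hBft : Fintype B := Fintype.ofFinite _
  have hex : ∀ z : B, ∃ l : H →ₗ[ℚ_[ℓ]] ℚ_[ℓ], ∀ w : B, l w = if w = z then 1 else 0 := by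
    intro z
    let c : Submodule.span ℚ_[ℓ] (Set.range ((↑) : B → H)) →ₗ[ℚ_[ℓ]] ℚ_[ℓ] :=
      (Basis.span hBli).coord z
    obtain ⟨l, hl⟩ := c.exists_extend
    refine ⟨l, fun w => ?_⟩
    have h1 : (l : H →ₗ[ℚ_[ℓ]] ℚ_[ℓ]) (w : H) = c (Basis.span hBli w) := by
      rw [← hl, LinearMap.comp_apply]
      congr 1
      exact (congrArg Subtype.val (Basis.span_apply hBli w)).symm
    rw [h1]
    change (Basis.span hBli).repr (Basis.span hBli w) z = _
    rw [Basis.repr_self, Finsupp.single_apply]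
  choose l hl using hex
  have hexp : ∀ x ∈ Submodule.span ℚ_[ℓ] CX, x = ∑ z : B, l z x • (z : H) := by
    intro x hx
    rw [← hBs] at hx
    induction hx using Submodule.span_induction with
    | mem x hx =>
      have h1 : ∀ z : B, l z x • (z : H) = if (⟨x, hx⟩ : B) = z then (z : H) else 0 := by
        intro z
        have h2 := hl z ⟨x, hx⟩
        simp only at h2
        rw [h2]
        split_ifs
        · rw [one_smul]
        · rw [zero_smul]
      rw [Finset.sum_congr rfl fun z _ => h1 z, Finset.sum_ite_eq, if_pos (Finset.mem_univ _)]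
    | zero => simp
    | add x y _ _ hx hy =>
      conv_lhs => rw [hx, hy]
      rw [← Finset.sum_add_distrib]
      refine Finset.sum_congr rfl fun z _ => ?_
      rw [map_add, add_smul]
    | smul c x _ hx =>
      conv_lhs => rw [hx]
      rw [Finset.smul_sum]
      refine Finset.sum_congr rfl fun z _ => ?_
      rw [map_smul, smul_eq_mul, mul_smul]
  have hsum : f = ∑ z : B, (pr (ℓ := ℓ) (V := V) (n := n) e (z : H))
      (((l z).compAlternatingMap f).domDomCongr e.symm) := by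
    ext v
    let ev : ((Fin n → V) [⋀^Fin (2 * m)]→ₗ[ℚ_[ℓ]] H) →+ H :=
      { toFun := fun g => g v
        map_zero' := rfl
        map_add' := fun _ _ => rfl }
    have h0 : (∑ z : B, (pr (ℓ := ℓ) (V := V) (n := n) e (z : H))
          (((l z).compAlternatingMap f).domDomCongr e.symm)) v =
        ∑ z : B, (pr (ℓ := ℓ) (V := V) (n := n) e (z : H))
          (((l z).compAlternatingMap f).domDomCongr e.symm) v := map_sum ev _ _
    rw [h0]
    simp only [pr_apply]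
    have h1 : ∀ z : B, ((l z).compAlternatingMap f).domDomCongr e.symm (fun x => v (e x)) =
        l z (f v) := by
      intro z
      rw [AlternatingMap.domDomCongr_apply, LinearMap.compAlternatingMap_apply]
      congr 2
      funext x
      rw [Function.comp_apply, Equiv.apply_symm_apply]
    rw [Finset.sum_congr rfl fun z _ => by rw [h1 z]]
    exact hexp _ (hval v)
  rw [hsum]
  refine Submodule.sum_mem _ fun z _ => ?_
  have h3 := Submodule.mem_map_of_mem (f := pr (ℓ := ℓ) (V := V) (n := n) e (z : H)) (hcomp (l z))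
  rw [Submodule.map_span] at h3
  refine Submodule.span_mono ?_ h3
  rintro _ ⟨g, hg, rfl⟩
  exact hprod g hg z (hBX z.2) _ fun v => pr_apply e _ _ _

end assemble

section alt

variable {ℓ : ℕ} [Fact ℓ.Prime] {V H Γ : Type} [AddCommGroup V] [Module ℚ_[ℓ] V]
  [FiniteDimensional ℚ_[ℓ] V] [AddCommGroup H] [Module ℚ_[ℓ] H] [FiniteDimensional ℚ_[ℓ] H]
  [Group Γ] [TopologicalSpace Γ] [IsTopologicalGroup Γ] {ρ : Representation ℚ_[ℓ] Γ V}
  {χ : Γ →* ℚ_[ℓ]} {σ : Representation ℚ_[ℓ] Γ H} {κ : Type} [Fintype κ] [DecidableEq κ] {n : ℕ}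

theorem piece_fixed {r : ℕ} {f : (Fin n → V) [⋀^κ]→ₗ[ℚ_[ℓ]] H} {s : Γ}
    (hf : FixedCls ρ χ σ r f s) (b : κ → Fin n) : FixedBy ρ χ σ r (piece f b) s := by
  intro v
  have h1 : f (fun l i => ρ s ((Pi.single (b l) (v l) : Fin n → V) i)) =
      χ s ^ r • σ s (f fun l => Pi.single (b l) (v l)) := hf _
  have h2 : (fun (l : κ) (i : Fin n) => ρ s ((Pi.single (b l) (v l) : Fin n → V) i)) =
      fun l => Pi.single (b l) (ρ s (v l)) := funext fun l => single_rho ρ s (b l) (v l)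
  rw [h2] at h1
  exact h1

theorem alt_odd {r : ℕ} (f : (Fin n → V) [⋀^κ]→ₗ[ℚ_[ℓ]] H) (hf : IsTateIn ρ χ σ r f)
    (hodd : Odd (Fintype.card κ)) {s : Γ} {q : ℕ} {R Q : ℚ[X]} (hw : IsWeilAt ρ χ s q R)
    (hQ : (σ s⁻¹).charpoly = Q.map (algebraMap ℚ ℚ_[ℓ]))
    (hun : ∀ β : ℂ, aeval β Q = 0 → Unrelated R β) (hno : NoHalfPowers R q) : f = 0 := by
  obtain ⟨Δ, hΔ, hf⟩ := hf
  ext v
  rw [sum_pieces f v]
  refine Finset.sum_eq_zero fun b _ => ?_
  have h1 := (dense_frob hw σ hQ hun (piece f b) Δ hΔ fun t ht => piece_fixed (hf t ht) b).1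
    hno hodd
  rw [h1]
  rfl

theorem alt_fixed [CompactSpace Γ] (hρ : ContCoef ρ) (hχ : Continuous χ) {S : Set Γ}
    (hS : Dense S) (hgood : ∀ s ∈ S, GoodAt ρ χ σ s) {r m : ℕ} (hm : Fintype.card κ = 2 * m)
    (f : (Fin n → V) [⋀^κ]→ₗ[ℚ_[ℓ]] H) (hf : IsTateIn ρ χ σ r f) :
    ∃ U : Subgroup Γ, U.FiniteIndex ∧ ∀ u ∈ U, ∀ v : κ → Fin n → V,
      f (fun l i => ρ u (v l i)) = χ u ^ m • f v := by
  classical
  obtain ⟨Δ, hΔ, hf⟩ := hf
  have h1 := fun b : κ → Fin n => fixed_open hρ hχ hS hgood hm (piece f b) Δ hΔ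
    fun t ht => piece_fixed (hf t ht) b
  choose U hU hUf using h1
  refine ⟨⨅ b, U b, Subgroup.finiteIndex_iInf hU, fun u hu v => ?_⟩
  rw [sum_pieces f, sum_pieces f v, Finset.smul_sum]
  refine Finset.sum_congr rfl fun b _ => ?_
  exact hUf b u (Subgroup.mem_iInf.1 hu b) fun l => v l (b l)

end alt

section final

variable {ℓ : ℕ} [Fact ℓ.Prime] {V Γ : Type} [AddCommGroup V] [Module ℚ_[ℓ] V]
    [FiniteDimensional ℚ_[ℓ] V] {H : ℕ → Type} [∀ i, AddCommGroup (H i)]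
    [∀ i, Module ℚ_[ℓ] (H i)] [∀ i, FiniteDimensional ℚ_[ℓ] (H i)]
    [Group Γ] [TopologicalSpace Γ] [IsTopologicalGroup Γ] [CompactSpace Γ]
    {ρ : Representation ℚ_[ℓ] Γ V} {χ : Γ →* ℚ_[ℓ]}
    {σ : ∀ i, Representation ℚ_[ℓ] Γ (H i)}
    {CA : ∀ n m : ℕ, Set ((Fin n → V) [⋀^Fin m × Fin 2]→ₗ[ℚ_[ℓ]] ℚ_[ℓ])}
    {CX : ∀ r : ℕ, Set (H (2 * r))}
    {C : ∀ n i j : ℕ, Set ((Fin n → V) [⋀^Fin i]→ₗ[ℚ_[ℓ]] H j)}

theorem product_dense (hC : IsCyclesOnProduct CA CX C) (hρ : ContCoef ρ) (hχ : Continuous χ)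
    (hS : Dense {s : Γ | GoodPlace ρ χ σ s}) (hodd : ∃ s, OddPlace ρ χ σ s) (n : ℕ)
    (hA : TateForPower ρ χ n (CA n)) (hX : TateFor χ σ CX) : TateForProduct ρ χ σ n (C n) := by
  classical
  intro i j r hir f hf
  rcases Nat.even_or_odd' i with ⟨m, hm | hm⟩
  · subst hm
    have hmr : m ≤ r := by omega
    obtain rfl : j = 2 * (r - m) := by omega
    obtain ⟨U, hU, hUf⟩ := alt_fixed hρ hχ hS (σ := σ (2 * (r - m)))
      (fun s hs => by
        obtain ⟨q, R, hw, hun⟩ := hs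
        obtain ⟨Q, hQ, hQu⟩ := hun (2 * (r - m))
        exact ⟨q, R, Q, hw, hQ, hQu⟩) (m := m) (by rw [Fintype.card_fin]) f hf
    let e : Fin m × Fin 2 ≃ Fin (2 * m) := Fintype.equivOfCardEq (by
      rw [Fintype.card_prod, Fintype.card_fin, Fintype.card_fin, Fintype.card_fin, mul_comm])
    refine assemble e (fun g hg z hz f' hf' => hC.product n m (r - m) g hg z hz e f' hf') f ?_ ?_
    · intro v
      refine hX (r - m) _ ?_
      obtain ⟨Δ, hΔ, h2⟩ := hf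
      refine ⟨U ⊓ Δ, inferInstance, fun s hs => ?_⟩
      have h3 := hUf s hs.1 v
      have h4 := h2 s hs.2 v
      rw [h3] at h4
      have hχ0 : χ s ≠ 0 := by
        intro h0
        have h5 : χ s * χ s⁻¹ = 1 := by rw [← map_mul, mul_inv_cancel, map_one]
        rw [h0, zero_mul] at h5
        exact zero_ne_one h5
      have h5 : χ s ^ m • (χ s ^ (r - m) • σ _ s (f v)) = χ s ^ m • f v := by
        rw [smul_smul, ← pow_add, Nat.add_sub_cancel' hmr, ← h4]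
      exact smul_right_injective _ (pow_ne_zero m hχ0) h5
    · intro l
      refine hA m _ ⟨U, hU, fun s hs v => ?_⟩
      have h3 := congrArg l (hUf s hs (fun x => v (e.symm x)))
      rw [map_smul] at h3
      exact h3
  · obtain ⟨s, q, R, hw, hun, hno⟩ := hodd
    obtain ⟨Q, hQ, hQu⟩ := hun j
    have h0 : f = 0 := alt_odd f hf (by rw [Fintype.card_fin]; exact ⟨m, hm⟩) hw hQ hQu hno
    rw [h0]
    exact Submodule.zero_mem _

theorem power_of_product {e₀ : H 0} {ε : H 0 →ₗ[ℚ_[ℓ]] ℚ_[ℓ]} (hP : HasPoint σ CA C e₀ ε) {n : ℕ}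
    (h : TateForProduct ρ χ σ n (C n)) : TateForPower ρ χ n (CA n) := by
  classical
  intro m g hg
  let e : Fin m × Fin 2 ≃ Fin (2 * m) := Fintype.equivOfCardEq (by
    rw [Fintype.card_prod, Fintype.card_fin, Fintype.card_fin, Fintype.card_fin, mul_comm])
  let f := (pr (ℓ := ℓ) (V := V) (n := n) e e₀) g
  have hf : IsTateIn ρ χ (σ 0) m f := by
    obtain ⟨Δ, hΔ, hg⟩ := hg
    refine ⟨Δ, hΔ, fun s hs v => ?_⟩
    change g (fun x i => ρ s (v (e x) i)) • e₀ = χ s ^ m • σ 0 s (g (fun x => v (e x)) • e₀)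
    rw [hg s hs (fun x => v (e x)), map_smul, hP.unit, mul_smul]
  have h1 := h (2 * m) 0 m (add_zero _) f hf
  let T : ((Fin n → V) [⋀^Fin (2 * m)]→ₗ[ℚ_[ℓ]] H 0) →ₗ[ℚ_[ℓ]]
      ((Fin n → V) [⋀^Fin m × Fin 2]→ₗ[ℚ_[ℓ]] ℚ_[ℓ]) :=
    { toFun := fun f => (ε.compAlternatingMap f).domDomCongr e.symm
      map_add' := by
        intro f f'
        ext v
        simp
      map_smul' := by
        intro c f
        ext v
        simp }
  have hT : ∀ f v, T f v = ε (f fun l => v (e.symm l)) := fun f v => rfl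
  have h2 : T f = g := by
    ext v
    rw [hT, pr_apply, map_smul, hP.point, smul_eq_mul, mul_one]
    congr 1
    funext x
    rw [Equiv.symm_apply_apply]
  rw [← h2]
  have h3 := Submodule.mem_map_of_mem (f := T) h1
  rw [Submodule.map_span] at h3
  refine Submodule.span_le.2 ?_ h3
  rintro _ ⟨f', hf', rfl⟩
  exact hP.restriction n m f' hf' e _ fun v => hT f' v

end final

end Pool.Agent.K6.H79.TX
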