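import Mathlib
import Pool.Agent.K6.H79.TX.Normal

/-!
# The conjecture of Tate for `A ^ n × X`
-/

set_option autoImplicit false
set_option linter.unusedSectionVars false

namespace Pool.Agent.K6.H79.TX

open NumberField Module Polynomial Pool.Agent.H204R3.GP Pool.Agent.H204R3.SP
  Pool.Agent.H204R3.CM Pool.Agent.K6.H79.MU TensorProduct Pool.Agent.TH170.FT

section generalities

variable {k V Γ : Type} [Field k] [AddCommGroup V] [Module k V] [Group Γ]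
  (ρ : Representation k Γ V) (χ : Γ →* k)

theorem tateClass_span {n m : ℕ} {g : (Fin n → V) [⋀^Fin m × Fin 2]→ₗ[k] k}
    (hg : g ∈ Submodule.span k {g : (Fin n → V) [⋀^Fin m × Fin 2]→ₗ[k] k |
      ∃ B : Fin m → (Fin n → V) [⋀^Fin 2]→ₗ[k] k, (∀ l, IsTateClass ρ χ 1 (B l)) ∧
        IsWedge B g}) : IsTateClass ρ χ m g := by
  induction hg using Submodule.span_induction with
  | mem g hg =>
    obtain ⟨B, hB, hg⟩ := hg
    choose Δ hΔ hBΔ using hB
    refine ⟨⨅ l, Δ l, Subgroup.finiteIndex_iInf hΔ, fun s hs v => ?_⟩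
    rw [hg, hg, Finset.mul_sum]
    refine Finset.sum_congr rfl fun τ _ => ?_
    have h1 : ∀ l : Fin m, B l ![fun i => ρ s (v (τ (l, 0)) i), fun i => ρ s (v (τ (l, 1)) i)] =
        χ s * B l ![v (τ (l, 0)), v (τ (l, 1))] := by
      intro l
      have h2 := hBΔ l s (Subgroup.mem_iInf.1 hs l) ![v (τ (l, 0)), v (τ (l, 1))]
      rw [pow_one] at h2
      rw [← h2]
      congr 1
      funext x
      fin_cases x <;> rfl
    rw [Finset.prod_congr rfl fun l _ => h1 l, Finset.prod_mul_distrib, Finset.prod_const,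
      Finset.card_univ, Fintype.card_fin]
    ring
  | zero =>
    refine ⟨⊤, inferInstance, fun s _ v => ?_⟩
    simp
  | add g h _ _ hg hh =>
    obtain ⟨Δ, hΔ, hg⟩ := hg
    obtain ⟨Δ', hΔ', hh⟩ := hh
    refine ⟨Δ ⊓ Δ', inferInstance, fun s hs v => ?_⟩
    rw [AlternatingMap.add_apply, AlternatingMap.add_apply, hg s hs.1, hh s hs.2]
    ring
  | smul c g _ hg =>
    obtain ⟨Δ, hΔ, hg⟩ := hg
    refine ⟨Δ, hΔ, fun s hs v => ?_⟩
    rw [AlternatingMap.smul_apply, AlternatingMap.smul_apply, hg s hs, smul_eq_mul, smul_eq_mul]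
    ring

end generalities

variable {p : ℕ} [Fact p.Prime] {a : ℕ} {ι : Type} [Fintype ι] {F : ι → Type}
  [∀ i, Field (F i)] [∀ i, NumberField (F i)] [∀ i, IsCMField (F i)]
  {L : Type} [Field L] [NumberField L] [IsGalois ℚ L]

section two

variable {π : ∀ i, F i} (hgen : ∀ i, IntermediateField.adjoin ℚ {π i} = ⊤)
    (hw : ∀ i, π i * IsCMField.complexConj (F i) (π i) = (p : F i) ^ a) (hneat : Neat p a π L)
    (hcard : ∀ i, Fintype.card (F i →+* L) = finrank ℚ (F i))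
    {ℓ : ℕ} [Fact ℓ.Prime] {V Γ : Type} [AddCommGroup V] [Module ℚ_[ℓ] V]
    [FiniteDimensional ℚ_[ℓ] V] [Group Γ] {ρ : Representation ℚ_[ℓ] Γ V} {χ : Γ →* ℚ_[ℓ]}
    {ω : V →ₗ[ℚ_[ℓ]] V →ₗ[ℚ_[ℓ]] ℚ_[ℓ]} (hR : IsTateModule ρ χ ω) (γ : Γ)
    (hγ : (ρ γ).charpoly = ∏ i, (minpoly ℚ (π i)).map (algebraMap ℚ ℚ_[ℓ]))

/-- The restriction to a subgroup. -/
noncomputable def resR (ρ : Representation ℚ_[ℓ] Γ V) (N : Subgroup Γ) : Representation ℚ_[ℓ] N V :=
  ρ.comp N.subtype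

theorem resR_apply (ρ : Representation ℚ_[ℓ] Γ V) (N : Subgroup Γ) (s : N) :
    resR ρ N s = ρ (s : Γ) := rfl

include hR in
theorem isTateModule_normal (N : Subgroup Γ) [N.Normal] :
    IsTateModule (resR ρ N) (χ.comp N.subtype) ω := by
  refine ⟨hR.alternating, hR.nondegenerate, fun s u v => hR.equivariant s u v, ?_⟩
  have h1 : Pool.Agent.Y114.GF.Semi ρ (⊤ : Subgroup Γ) := by
    intro U hU
    exact hR.semisimple ⊤ inferInstance U hU
  have h2 := Pool.Agent.Y114.GF.semi_normal ρ h1 N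
  have h3 : Pool.Agent.Y114.GF.Semi (resR ρ N) (⊤ : Subgroup N) := by
    intro U hU
    obtain ⟨U', hU', hc⟩ := h2 U fun g hg u hu => hU ⟨g, hg⟩ trivial u hu
    exact ⟨U', fun g _ u hu => hU' g g.2 u hu, hc⟩
  intro Δ hΔ U hU
  exact Pool.Agent.Y114.GF.semi_finiteIndex (resR ρ N) h3 Δ U hU

include hgen hw hneat hcard hR hγ in
/-- Degree two. -/
theorem tate2_of_normal {n : ℕ} (B : (Fin n → V) [⋀^Fin 2]→ₗ[ℚ_[ℓ]] ℚ_[ℓ])
    (hB : IsTateClass (resR ρ (Subgroup.normalClosure {γ}))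
      (χ.comp (Subgroup.normalClosure {γ}).subtype) 1 B) : IsTateClass ρ χ 1 B := by
  classical
  obtain ⟨Δ', hΔ', hB⟩ := hB
  -- the linear map given by the form
  let Φ : V →ₗ[ℚ_[ℓ]] Dual ℚ_[ℓ] V := ω.flip
  have hΦ : Function.Injective Φ := by
    rw [← LinearMap.ker_eq_bot, LinearMap.ker_eq_bot']
    intro u hu
    refine hR.nondegenerate u fun v => ?_
    exact congrArg (fun T : Dual ℚ_[ℓ] V => T v) hu
  let E : V ≃ₗ[ℚ_[ℓ]] Dual ℚ_[ℓ] V :=
    LinearEquiv.ofInjectiveOfFinrankEq Φ hΦ (Subspace.dual_finrank_eq (K := ℚ_[ℓ]) (V := V)).symm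
  have hE : ∀ (g : Dual ℚ_[ℓ] V) (x : V), ω x (E.symm g) = g x := by
    intro g x
    have h1 : E (E.symm g) = g := E.apply_symm_apply g
    exact congrArg (fun T : Dual ℚ_[ℓ] V => T x) h1
  have hsurj : ∀ s : Γ, Function.Surjective (ρ s) := by
    intro s y
    refine ⟨ρ s⁻¹ y, ?_⟩
    rw [← Module.End.mul_apply, ← map_mul, mul_inv_cancel, map_one]
    rfl
  -- the pieces of `B`
  let Bf : (Fin 2 → Fin n) → V →ₗ[ℚ_[ℓ]] V →ₗ[ℚ_[ℓ]] ℚ_[ℓ] := fun b =>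
    (toBil B).compl₁₂ (LinearMap.single ℚ_[ℓ] (fun _ : Fin n => V) (b 0))
      (LinearMap.single ℚ_[ℓ] (fun _ : Fin n => V) (b 1))
  have hBf : ∀ b x y, Bf b x y = B ![Pi.single (b 0) x, Pi.single (b 1) y] := fun b x y => rfl
  have hpiece : ∀ (b : Fin 2 → Fin n) (x : Fin 2 → V), piece B b x = Bf b (x 0) (x 1) := by
    intro b x
    rw [piece_apply, hBf]
    congr 1
    funext l
    fin_cases l <;> rfl
  let c : (Fin 2 → Fin n) → End ℚ_[ℓ] V := fun b => E.symm.toLinearMap ∘ₗ (Bf b).flip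
  have hc : ∀ b x y, ω x (c b y) = Bf b x y := fun b x y => hE _ x
  have hcomm : ∀ b, ∀ s ∈ Δ', ρ s * c b = c b * ρ s := by
    intro b s hs
    refine LinearMap.ext fun y => ?_
    rw [← sub_eq_zero]
    change ρ s (c b y) - c b (ρ s y) = 0
    refine hR.nondegenerate _ fun x => ?_
    obtain ⟨x, rfl⟩ := hsurj s x
    rw [map_sub, hR.equivariant, hc, hc, sub_eq_zero]
    have h1 := hB s hs ![Pi.single (b 0) x, Pi.single (b 1) y]
    rw [pow_one] at h1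
    rw [hBf, hBf]
    have h2 : (fun (l : Fin 2) (i : Fin n) => (resR ρ (Subgroup.normalClosure {γ})) s
        ((![Pi.single (b 0) x, Pi.single (b 1) y] : Fin 2 → Fin n → V) l i)) =
        ![Pi.single (b 0) (ρ s x), Pi.single (b 1) (ρ s y)] := by
      funext l
      fin_cases l
      · exact single_rho ρ (s : Γ) (b 0) x
      · exact single_rho ρ (s : Γ) (b 1) y
    rw [h2] at h1
    exact h1.symm
  have h1 : ∀ b, ∃ Δ : Subgroup Γ, Δ.FiniteIndex ∧ ∀ s ∈ Δ, ρ s * c b = c b * ρ s := fun b =>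
    exists_commuting hgen hw hneat hcard ρ γ hγ Δ' hΔ' (c b) (hcomm b)
  choose Δ hΔ hcΔ using h1
  refine ⟨⨅ b, Δ b, Subgroup.finiteIndex_iInf hΔ, fun s hs v => ?_⟩
  rw [pow_one, sum_pieces B, sum_pieces B v, Finset.mul_sum]
  refine Finset.sum_congr rfl fun b _ => ?_
  rw [hpiece, hpiece, ← hc, ← hc]
  have h2 : c b (ρ s (v 1 (b 1))) = ρ s (c b (v 1 (b 1))) :=
    (congrArg (fun T : End ℚ_[ℓ] V => T (v 1 (b 1))) (hcΔ b s (Subgroup.mem_iInf.1 hs b))).symm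
  rw [h2, hR.equivariant]

end two

section main

variable {π : ∀ i, F i} (ha : 0 < a) (hgen : ∀ i, IntermediateField.adjoin ℚ {π i} = ⊤)
    (hw : ∀ i, π i * IsCMField.complexConj (F i) (π i) = (p : F i) ^ a) (j : L →+* ℂ)
    (hj : ∀ i, ∀ ψ : F i →+* ℂ, ∃ φ : F i →+* L, j.comp φ = ψ) (hneat : Neat p a π L)
    {ℓ : ℕ} [Fact ℓ.Prime] {V H Γ : Type} [AddCommGroup V] [Module ℚ_[ℓ] V]
    [FiniteDimensional ℚ_[ℓ] V] [AddCommGroup H] [Module ℚ_[ℓ] H] [FiniteDimensional ℚ_[ℓ] H]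
    [Group Γ] {ρ : Representation ℚ_[ℓ] Γ V} {χ : Γ →* ℚ_[ℓ]}
    {ω : V →ₗ[ℚ_[ℓ]] V →ₗ[ℚ_[ℓ]] ℚ_[ℓ]} (hR : IsTateModule ρ χ ω)
    (σ : Representation ℚ_[ℓ] Γ H) (γ : Γ) (hχ : χ γ = (p : ℚ_[ℓ]) ^ a)
    (hγ : (ρ γ).charpoly = ∏ i, (minpoly ℚ (π i)).map (algebraMap ℚ ℚ_[ℓ]))
    {Q : ℚ[X]} (hQ : (σ γ⁻¹).charpoly = Q.map (algebraMap ℚ ℚ_[ℓ]))
    (hun : ∀ β : ℂ, aeval β Q = 0 → Unrelated (∏ i, minpoly ℚ (π i)) β)

include ha hgen hw hj hneat hR hχ hγ hQ hun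

/-- The components of a Tate class on the product are generated in degree two. -/
theorem scalar_generated {κ : Type} [Fintype κ] [DecidableEq κ] {n r m : ℕ}
    (f : (Fin n → V) [⋀^κ]→ₗ[ℚ_[ℓ]] H) (hf : IsTateIn ρ χ σ r f) (e : Fin m × Fin 2 ≃ κ)
    (l : H →ₗ[ℚ_[ℓ]] ℚ_[ℓ]) :
    (l.compAlternatingMap f).domDomCongr e.symm ∈ Submodule.span ℚ_[ℓ]
      {g : (Fin n → V) [⋀^Fin m × Fin 2]→ₗ[ℚ_[ℓ]] ℚ_[ℓ] |
        ∃ B : Fin m → (Fin n → V) [⋀^Fin 2]→ₗ[ℚ_[ℓ]] ℚ_[ℓ], (∀ l, IsTateClass ρ χ 1 (B l)) ∧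
          IsWedge B g} := by
  classical
  have hcard : ∀ i, Fintype.card (F i →+* L) = finrank ℚ (F i) := fun i => card_emb j (hj i)
  have hm : Fintype.card κ = 2 * m := by
    rw [← Fintype.card_congr e, Fintype.card_prod, Fintype.card_fin, Fintype.card_fin, mul_comm]
  let N : Subgroup Γ := Subgroup.normalClosure {γ}
  have hN : IsTateModule (resR ρ N) (χ.comp N.subtype) ω := isTateModule_normal hR N
  have hF : HasFrobenius (resR ρ N) (χ.comp N.subtype) p a π :=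
    ⟨⟨γ, Subgroup.subset_normalClosure (Set.mem_singleton γ)⟩, hχ, hγ⟩
  have h1 : IsTateClass (resR ρ N) (χ.comp N.subtype) m
      ((l.compAlternatingMap f).domDomCongr e.symm) := by
    refine ⟨⊤, inferInstance, fun s _ v => ?_⟩
    have h2 := acts_normal hgen hw hneat hcard ρ χ σ γ hχ hγ hQ hun f hf hm (s : Γ) s.2
      (fun x => v (e.symm x))
    have h3 := congrArg l h2
    rw [map_smul] at h3
    exact h3
  have h2 := generated ha hgen hw j hj hneat hN hF n m _ h1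
  refine Submodule.span_mono ?_ h2
  rintro g ⟨B, hB, hg⟩
  exact ⟨B, fun l => tate2_of_normal hgen hw hneat hcard hR γ hγ (B l) (hB l), hg⟩

/-- A subgroup of finite index acts on a Tate class on the product by a power of the cyclotomic
character. -/
theorem class_fixed {κ : Type} [Fintype κ] [DecidableEq κ] {n r m : ℕ}
    (f : (Fin n → V) [⋀^κ]→ₗ[ℚ_[ℓ]] H) (hf : IsTateIn ρ χ σ r f) (e : Fin m × Fin 2 ≃ κ) :
    ∃ Δ : Subgroup Γ, Δ.FiniteIndex ∧ ∀ s ∈ Δ, ∀ v : κ → Fin n → V,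
      f (fun l i => ρ s (v l i)) = χ s ^ m • f v := by
  classical
  let b := Module.finBasis ℚ_[ℓ] H
  have h1 : ∀ x, IsTateClass ρ χ m (((b.coord x).compAlternatingMap f).domDomCongr e.symm) :=
    fun x => tateClass_span ρ χ
      (scalar_generated ha hgen hw j hj hneat hR σ γ hχ hγ hQ hun f hf e (b.coord x))
  choose Δ hΔ hf' using h1
  refine ⟨⨅ x, Δ x, Subgroup.finiteIndex_iInf hΔ, fun s hs v => ?_⟩
  apply b.repr.injective
  ext x
  rw [map_smul, Finsupp.smul_apply, smul_eq_mul]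
  have h2 := hf' x s (Subgroup.mem_iInf.1 hs x) (fun y => v (e y))
  simp only [AlternatingMap.domDomCongr_apply, LinearMap.compAlternatingMap_apply,
    Basis.coord_apply] at h2
  have e1 : ((fun (l : Fin m × Fin 2) (i : Fin n) => ρ s (v (e l) i)) ∘ e.symm) =
      fun l i => ρ s (v l i) := by
    funext l i
    simp only [Function.comp_apply, Equiv.apply_symm_apply]
  have e2 : ((fun y => v (e y)) ∘ e.symm) = v := by
    funext l
    simp only [Function.comp_apply, Equiv.apply_symm_apply]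
  rw [e1, e2] at h2
  exact h2

/-- The values of a Tate class on the product are Tate classes. -/
theorem value_tate {κ : Type} [Fintype κ] [DecidableEq κ] {n r m : ℕ} (hmr : m ≤ r)
    (f : (Fin n → V) [⋀^κ]→ₗ[ℚ_[ℓ]] H) (hf : IsTateIn ρ χ σ r f) (e : Fin m × Fin 2 ≃ κ)
    (v : κ → Fin n → V) : IsTateVector χ σ (r - m) (f v) := by
  obtain ⟨Δ, hΔ, h1⟩ := class_fixed ha hgen hw j hj hneat hR σ γ hχ hγ hQ hun f hf e
  obtain ⟨Δ', hΔ', h2⟩ := hf
  refine ⟨Δ ⊓ Δ', inferInstance, fun s hs => ?_⟩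
  have h3 := h1 s hs.1 v
  have h4 := h2 s hs.2 v
  rw [h3] at h4
  have hχ0 : χ s ≠ 0 := by
    intro h0
    have h5 : χ s * χ s⁻¹ = 1 := by rw [← map_mul, mul_inv_cancel, map_one]
    rw [h0, zero_mul] at h5
    exact zero_ne_one h5
  have h5 : χ s ^ m • (χ s ^ (r - m) • σ s (f v)) = χ s ^ m • f v := by
    rw [smul_smul, ← pow_add, Nat.add_sub_cancel' hmr, ← h4]
  exact smul_right_injective H (pow_ne_zero m hχ0) h5

/-- **The classes on the product.** -/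
theorem class_mem {n r m : ℕ} (hmr : m ≤ r)
    {D : Set ((Fin n → V) [⋀^Fin 2]→ₗ[ℚ_[ℓ]] ℚ_[ℓ])}
    {CA : Set ((Fin n → V) [⋀^Fin m × Fin 2]→ₗ[ℚ_[ℓ]] ℚ_[ℓ])} {CX : Set H}
    {C : Set ((Fin n → V) [⋀^Fin (2 * m)]→ₗ[ℚ_[ℓ]] H)}
    (hfal : ∀ B : (Fin n → V) [⋀^Fin 2]→ₗ[ℚ_[ℓ]] ℚ_[ℓ], IsTateClass ρ χ 1 B →
      B ∈ Submodule.span ℚ_[ℓ] D)
    (hint : ∀ (B : Fin m → (Fin n → V) [⋀^Fin 2]→ₗ[ℚ_[ℓ]] ℚ_[ℓ]) g, (∀ l, B l ∈ D) →
      IsWedge B g → g ∈ CA)
    (hX : ∀ z, IsTateVector χ σ (r - m) z → z ∈ Submodule.span ℚ_[ℓ] CX)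
    (hprod : ∀ g ∈ CA, ∀ z ∈ CX, ∀ (e : Fin m × Fin 2 ≃ Fin (2 * m))
      (f : (Fin n → V) [⋀^Fin (2 * m)]→ₗ[ℚ_[ℓ]] H), (∀ v, f v = g (fun l => v (e l)) • z) → f ∈ C)
    (f : (Fin n → V) [⋀^Fin (2 * m)]→ₗ[ℚ_[ℓ]] H) (hf : IsTateIn ρ χ σ r f) :
    f ∈ Submodule.span ℚ_[ℓ] C := by
  classical
  let e : Fin m × Fin 2 ≃ Fin (2 * m) := Fintype.equivOfCardEq (by
    rw [Fintype.card_prod, Fintype.card_fin, Fintype.card_fin, Fintype.card_fin, mul_comm])
  have hval : ∀ v, f v ∈ Submodule.span ℚ_[ℓ] CX := fun v =>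
    hX _ (value_tate ha hgen hw j hj hneat hR σ γ hχ hγ hQ hun hmr f hf e v)
  obtain ⟨B, hBX, hBs, hBli⟩ := exists_linearIndependent ℚ_[ℓ] CX
  have hBfin : Finite B := hBli.finite
  have hBft : Fintype B := Fintype.ofFinite _
  -- functionals
  have hex : ∀ z : B, ∃ l : H →ₗ[ℚ_[ℓ]] ℚ_[ℓ], ∀ w : B, l w = if w = z then 1 else 0 := by
    intro z
    let c : Submodule.span ℚ_[ℓ] (Set.range ((↑) : B → H)) →ₗ[ℚ_[ℓ]] ℚ_[ℓ] :=
      (Basis.span hBli).coord z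
    obtain ⟨l, hl⟩ := c.exists_extend
    refine ⟨l, fun w => ?_⟩
    have h1 : (l : H →ₗ[ℚ_[ℓ]] ℚ_[ℓ]) (w : H) = c (Basis.span hBli w) := by
      rw [← hl, LinearMap.comp_apply]
      congr 1
      exact (congrArg Subtype.val (Basis.span_apply hBli w)).symm
    rw [h1]
    change (Basis.span hBli).repr (Basis.span hBli w) z = _
    rw [Basis.repr_self, Finsupp.single_apply]
  choose l hl using hex
  have hexp : ∀ x ∈ Submodule.span ℚ_[ℓ] CX, x = ∑ z : B, l z x • (z : H) := by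
    intro x hx
    rw [← hBs] at hx
    induction hx using Submodule.span_induction with
    | mem x hx =>
      have h1 : ∀ z : B, l z x • (z : H) = if (⟨x, hx⟩ : B) = z then (z : H) else 0 := by
        intro z
        have h2 := hl z ⟨x, hx⟩
        simp only at h2
        rw [h2]
        split_ifs
        · rw [one_smul]
        · rw [zero_smul]
      rw [Finset.sum_congr rfl fun z _ => h1 z, Finset.sum_ite_eq, if_pos (Finset.mem_univ _)]
    | zero => simp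
    | add x y _ _ hx hy =>
      conv_lhs => rw [hx, hy]
      rw [← Finset.sum_add_distrib]
      refine Finset.sum_congr rfl fun z _ => ?_
      rw [map_add, add_smul]
    | smul c x _ hx =>
      conv_lhs => rw [hx]
      rw [Finset.smul_sum]
      refine Finset.sum_congr rfl fun z _ => ?_
      rw [map_smul, smul_eq_mul, mul_smul]
  -- products
  let pr : H → ((Fin n → V) [⋀^Fin m × Fin 2]→ₗ[ℚ_[ℓ]] ℚ_[ℓ]) →ₗ[ℚ_[ℓ]]
      ((Fin n → V) [⋀^Fin (2 * m)]→ₗ[ℚ_[ℓ]] H) := fun z =>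
    { toFun := fun g => (LinearMap.toSpanSingleton ℚ_[ℓ] H z).compAlternatingMap
        (g.domDomCongr e)
      map_add' := by
        intro g g'
        ext v
        simp
      map_smul' := by
        intro c g
        ext v
        simp }
  have hpr : ∀ z g v, pr z g v = g (fun x => v (e x)) • z := fun z g v => rfl
  have hsum : f = ∑ z : B, pr z (((l z).compAlternatingMap f).domDomCongr e.symm) := by
    ext v
    let ev : ((Fin n → V) [⋀^Fin (2 * m)]→ₗ[ℚ_[ℓ]] H) →+ H :=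
      { toFun := fun g => g v
        map_zero' := rfl
        map_add' := fun _ _ => rfl }
    have h0 : (∑ z : B, pr z (((l z).compAlternatingMap f).domDomCongr e.symm)) v =
        ∑ z : B, pr z (((l z).compAlternatingMap f).domDomCongr e.symm) v := map_sum ev _ _
    rw [h0]
    simp only [hpr]
    have h1 : ∀ z : B, ((l z).compAlternatingMap f).domDomCongr e.symm (fun x => v (e x)) =
        l z (f v) := by
      intro z
      rw [AlternatingMap.domDomCongr_apply, LinearMap.compAlternatingMap_apply]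
      congr 2
      funext x
      rw [Function.comp_apply, Equiv.apply_symm_apply]
    rw [Finset.sum_congr rfl fun z _ => by rw [h1 z]]
    exact hexp _ (hval v)
  rw [hsum]
  refine Submodule.sum_mem _ fun z _ => ?_
  have h1 := scalar_generated ha hgen hw j hj hneat hR σ γ hχ hγ hQ hun f hf e (l z)
  have h2 : ((l z).compAlternatingMap f).domDomCongr e.symm ∈ Submodule.span ℚ_[ℓ] CA := by
    refine Submodule.span_le.2 ?_ h1
    rintro g ⟨B', hB', hg⟩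
    exact wedge_mem hint (fun l => hfal _ (hB' l)) hg
  have h3 := Submodule.mem_map_of_mem (f := pr z) h2
  rw [Submodule.map_span] at h3
  refine Submodule.span_mono ?_ h3
  rintro _ ⟨g, hg, rfl⟩
  exact hprod g hg z (hBX z.2) e _ fun v => hpr _ _ _

end main

section final

variable {π : ∀ i, F i} (ha : 0 < a) (hgen : ∀ i, IntermediateField.adjoin ℚ {π i} = ⊤)
    (hw : ∀ i, π i * IsCMField.complexConj (F i) (π i) = (p : F i) ^ a) (j : L →+* ℂ)
    (hj : ∀ i, ∀ ψ : F i →+* ℂ, ∃ φ : F i →+* L, j.comp φ = ψ) (hneat : Neat p a π L)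
    {ℓ : ℕ} [Fact ℓ.Prime] {V Γ : Type} [AddCommGroup V] [Module ℚ_[ℓ] V]
    [FiniteDimensional ℚ_[ℓ] V] {H : ℕ → Type} [∀ i, AddCommGroup (H i)]
    [∀ i, Module ℚ_[ℓ] (H i)] [∀ i, FiniteDimensional ℚ_[ℓ] (H i)]
    [Group Γ] {ρ : Representation ℚ_[ℓ] Γ V} {χ : Γ →* ℚ_[ℓ]}
    {ω : V →ₗ[ℚ_[ℓ]] V →ₗ[ℚ_[ℓ]] ℚ_[ℓ]} (hR : IsTateModule ρ χ ω)
    {D : ∀ n : ℕ, Set ((Fin n → V) [⋀^Fin 2]→ₗ[ℚ_[ℓ]] ℚ_[ℓ])}
    {CA : ∀ n m : ℕ, Set ((Fin n → V) [⋀^Fin m × Fin 2]→ₗ[ℚ_[ℓ]] ℚ_[ℓ])}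
    (hCA : IsCycleClasses ρ χ D CA) {CX : ∀ r : ℕ, Set (H (2 * r))}
    {C : ∀ n i j : ℕ, Set ((Fin n → V) [⋀^Fin i]→ₗ[ℚ_[ℓ]] H j)} (hC : IsCyclesOnProduct CA CX C)
    (σ : ∀ i, Representation ℚ_[ℓ] Γ (H i)) (γ : Γ) (hχ : χ γ = (p : ℚ_[ℓ]) ^ a)
    (hγ : (ρ γ).charpoly = ∏ i, (minpoly ℚ (π i)).map (algebraMap ℚ ℚ_[ℓ]))
    (hun : UnrelatedAt σ γ (∏ i, minpoly ℚ (π i)))

include ha hgen hw hj hneat hR hCA hC hχ hγ hun in
theorem product_of_factor (hX : TateFor χ σ CX) (n : ℕ) : TateForProduct ρ χ σ n (C n) := by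
  classical
  intro i j' r hir f hf
  have hcard : ∀ i, Fintype.card (F i →+* L) = finrank ℚ (F i) := fun i => card_emb j (hj i)
  obtain ⟨Q, hQ, hQu⟩ := hun j'
  by_cases h0 : f = 0
  · rw [h0]
    exact Submodule.zero_mem _
  · obtain ⟨m, hm⟩ := (acts_gamma hgen hw hneat hcard ρ χ (σ j') γ hχ hγ hQ hQu f hf).1 h0
    rw [Fintype.card_fin] at hm
    subst hm
    have hmr : m ≤ r := by omega
    obtain rfl : j' = 2 * (r - m) := by omega
    exact class_mem ha hgen hw j hj hneat hR (σ _) γ hχ hγ hQ hQu hmr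
      (fun B hB => hCA.faltings n B hB) (fun B g => hCA.intersection n m B g)
      (fun z hz => hX (r - m) z hz) (fun g hg z hz e f' hf' => hC.product n m (r - m) g hg z hz e f' hf')
      f hf

include hC in
theorem factor_of_product {n : ℕ} (h : TateForProduct ρ χ σ n (C n)) : TateFor χ σ CX := by
  intro r z hz
  let f : (Fin n → V) [⋀^Fin 0]→ₗ[ℚ_[ℓ]] H (2 * r) := AlternatingMap.constOfIsEmpty ℚ_[ℓ] _ _ z
  have hf : IsTateIn ρ χ (σ (2 * r)) r f := by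
    obtain ⟨Δ, hΔ, hz⟩ := hz
    exact ⟨Δ, hΔ, fun s hs v => (hz s hs).symm⟩
  have h1 := h 0 (2 * r) r (zero_add _) f hf
  have h2 : ∀ g ∈ Submodule.span ℚ_[ℓ] (C n 0 (2 * r)), g 0 ∈ Submodule.span ℚ_[ℓ] (CX r) := by
    intro g hg
    induction hg using Submodule.span_induction with
    | mem g hg => exact hC.restriction n r g hg
    | zero => exact Submodule.zero_mem _
    | add g g' _ _ hg hg' => exact Submodule.add_mem _ hg hg'
    | smul c g _ hg => exact Submodule.smul_mem _ c hg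
  exact h2 f h1

end final

end Pool.Agent.K6.H79.TX
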