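import Mathlib
import Pool.Agent.K6.H79.TX.Weil

/-!
# Slopes with odd denominators
-/

set_option autoImplicit false

namespace Pool.Agent.K6.H79.TX

open Polynomial

/-- For some valuation of `ℂ` over `p`, all slopes of the polynomial `R` have odd denominators; for
instance all slopes are `0` or `1` (the ordinary case). -/
def OddSlopes (R : ℚ[X]) (q : ℕ) : Prop :=
  ∃ w : Valuation ℂ NNReal, w (q : ℂ) ≠ 0 ∧ w (q : ℂ) < 1 ∧ ∀ α : ℂ, aeval α R = 0 →
    ∃ a b : ℕ, Odd b ∧ w α ^ b = w (q : ℂ) ^ a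

theorem noHalf_of_slopes {R : ℚ[X]} {q : ℕ} (h : OddSlopes R q) : NoHalfPowers R q := by
  classical
  obtain ⟨w, hw0, hw1, hw⟩ := h
  intro n x hn hx M hM heq
  have key : ∀ s : Finset (Fin n), ∃ a b : ℕ, Odd b ∧ w (∏ l ∈ s, x l) ^ b = w (q : ℂ) ^ a := by
    intro s
    induction s using Finset.induction_on with
    | empty => exact ⟨0, 1, odd_one, by simp⟩
    | insert l s hl ih =>
      obtain ⟨a, b, hb, h1⟩ := ih
      obtain ⟨a', b', hb', h2⟩ := hw (x l) (hx l)
      refine ⟨a' * b + a * b', b' * b, hb'.mul hb, ?_⟩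
      rw [Finset.prod_insert hl, map_mul, mul_pow, pow_mul, h2, mul_comm b' b, pow_mul, h1,
        ← pow_mul, ← pow_mul, ← pow_add]
  obtain ⟨a, b, hb, h1⟩ := key Finset.univ
  have h2 : w (q : ℂ) ^ (a * (2 * M)) = w (q : ℂ) ^ (n * M * b) := by
    have h3 := congrArg (fun z => w z ^ b) heq
    simp only [map_pow] at h3
    rw [← pow_mul, mul_comm (2 * M) b, pow_mul, h1, ← pow_mul, ← pow_mul] at h3
    exact h3
  have h3 : a * (2 * M) = n * M * b :=
    pow_right_injective₀ (pos_iff_ne_zero.2 hw0) hw1.ne h2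
  have h4 : 2 * a = n * b := by
    have h5 : M * (2 * a) = M * (n * b) := by linarith
    exact Nat.eq_of_mul_eq_mul_left hM h5
  exact (Nat.not_even_iff_odd.2 (hn.mul hb)) ⟨a, by omega⟩

end Pool.Agent.K6.H79.TX
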