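import Mathlib
import Pool.Agent.K6.H79.TX.Main
import Pool.Agent.Y114.TF.Rel

/-!
# Full angle rank
-/

set_option autoImplicit false
set_option linter.unusedSectionVars false

namespace Pool.Agent.K6.H79.TX

open NumberField Module Polynomial Pool.Agent.H204R3.GP Pool.Agent.H204R3.SP
  Pool.Agent.H204R3.CM Pool.Agent.K6.H79.MU Pool.Agent.TH170.FT Pool.Agent.Y114.TF

variable {p : ℕ} [Fact p.Prime] {a : ℕ} {ι : Type} [Fintype ι] {F : ι → Type}
  [∀ i, Field (F i)] [∀ i, NumberField (F i)] [∀ i, IsCMField (F i)]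
  {L : Type} [Field L] [NumberField L] [IsGalois ℚ L]

/-- The embeddings in `L` and in `ℂ`. -/
noncomputable def embS (j : L →+* ℂ) (h : ∀ i, ∀ ψ : F i →+* ℂ, ∃ φ : F i →+* L, j.comp φ = ψ) :
    (Σ i, (F i →+* L)) ≃ (Σ i, (F i →+* ℂ)) :=
  Equiv.sigmaCongrRight fun i => embEquiv j (h i)

theorem embS_apply (j : L →+* ℂ) (h : ∀ i, ∀ ψ : F i →+* ℂ, ∃ φ : F i →+* L, j.comp φ = ψ)
    (x : Σ i, (F i →+* L)) : embS j h x = ⟨x.1, j.comp x.2⟩ := rfl

theorem embS_bar (j : L →+* ℂ) (h : ∀ i, ∀ ψ : F i →+* ℂ, ∃ φ : F i →+* L, j.comp φ = ψ)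
    (x : Σ i, (F i →+* L)) : embS j h (bar x) =
      ⟨x.1, ComplexEmbedding.conjugate (j.comp x.2)⟩ := by
  rw [embS_apply]
  have h1 : j.comp (cbar x.2) = ComplexEmbedding.conjugate (j.comp x.2) :=
    comp_cbar j x.2
  change (⟨x.1, j.comp (cbar x.2)⟩ : Σ i, (F i →+* ℂ)) = _
  rw [h1]

theorem prod_embS {π : ∀ i, F i} (j : L →+* ℂ)
    (h : ∀ i, ∀ ψ : F i →+* ℂ, ∃ φ : F i →+* L, j.comp φ = ψ) (k : (Σ i, (F i →+* ℂ)) → ℤ) :
    j (∏ x : Σ i, (F i →+* L), (x.2 (π x.1)) ^ k (embS j h x)) =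
      ∏ x : Σ i, (F i →+* ℂ), (x.2 (π x.1)) ^ k x := by
  rw [map_prod]
  refine Fintype.prod_equiv (embS j h) _ _ fun x => ?_
  rw [map_zpow₀]
  rfl

theorem only_of_full {π : ∀ i, F i} (hfull : FullAngleRank π) (j : L →+* ℂ)
    (h : ∀ i, ∀ ψ : F i →+* ℂ, ∃ φ : F i →+* L, j.comp φ = ψ) : OnlyTrivialRelations π L := by
  intro k hk x
  let k' : (Σ i, (F i →+* ℂ)) → ℤ := fun y => k ((embS j h).symm y)
  have h1 : ∏ x : Σ i, (F i →+* ℂ), (x.2 (π x.1)) ^ k' x = 1 := by
    rw [← prod_embS j h k']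
    have h2 : ∀ x, k' (embS j h x) = k x := fun x => by
      simp only [k', Equiv.symm_apply_apply]
    rw [Finset.prod_congr rfl fun x _ => by rw [h2 x], hk, map_one]
  have h2 := hfull k' h1 x.1 (j.comp x.2)
  have h3 : (⟨x.1, j.comp x.2⟩ : Σ i, (F i →+* ℂ)) = embS j h x := rfl
  rw [h3, ← embS_bar j h x] at h2
  simp only [k', Equiv.symm_apply_apply] at h2
  exact h2

/-- The converse. -/
theorem full_of_neat (ha : 0 < a) {π : ∀ i, F i}
    (hw : ∀ i, π i * IsCMField.complexConj (F i) (π i) = (p : F i) ^ a) (j : L →+* ℂ)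
    (h : ∀ i, ∀ ψ : F i →+* ℂ, ∃ φ : F i →+* L, j.comp φ = ψ) (hneat : Neat p a π L) :
    FullAngleRank π := by
  classical
  intro k hk
  let kL : (Σ i, (F i →+* L)) → ℤ := fun x => k (embS j h x)
  have hL : ∏ x : Σ i, (F i →+* L), (val π x) ^ kL x = 1 := by
    apply j.injective
    rw [map_one, ← hk, ← prod_embS j h k]
    rfl
  have hp1 : 1 < p ^ a := Nat.one_lt_pow ha.ne' (Fact.out : p.Prime).one_lt
  have hq0 : ((p : L) ^ a) ≠ 0 := pow_ne_zero _ (Nat.cast_ne_zero.2 (Fact.out : p.Prime).ne_zero)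
  have hvb := fun z => val_bar (L := L) hw z
  have hv : ∀ z : Σ i, (F i →+* L), val π z ≠ 0 := by
    intro z h0
    have := hvb z
    rw [h0, zero_mul] at this
    exact hq0 this.symm
  -- the sum of the exponents is zero
  have hsum : ∑ x, kL x = 0 := by
    have h1 : ∏ x : Σ i, (F i →+* ℂ), ((starRingEnd ℂ) (x.2 (π x.1))) ^ k x = 1 := by
      have := congrArg (starRingEnd ℂ) hk
      rw [map_prod, map_one] at this
      rw [← this]
      exact Finset.prod_congr rfl fun x _ => (map_zpow₀ _ _ _).symm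
    have h2 : ∏ x : Σ i, (F i →+* ℂ), (((p ^ a : ℕ) : ℂ)) ^ k x = 1 := by
      have h0 : (1 : ℂ) = (∏ x : Σ i, (F i →+* ℂ), (x.2 (π x.1)) ^ k x) *
          ∏ x : Σ i, (F i →+* ℂ), ((starRingEnd ℂ) (x.2 (π x.1))) ^ k x := by
        rw [hk, h1, mul_one]
      rw [h0, ← Finset.prod_mul_distrib]
      refine Finset.prod_congr rfl fun x _ => ?_
      rw [← mul_zpow]
      congr 1
      have h3 : (starRingEnd ℂ) (x.2 (π x.1)) = x.2 (IsCMField.complexConj (F x.1) (π x.1)) :=
        (IsCMField.complexEmbedding_complexConj (F x.1) x.2 (π x.1)).symm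
      rw [h3, ← map_mul, hw, map_pow, map_natCast]
      push_cast
      rfl
    have h3 : (((p ^ a : ℕ) : ℂ)) ^ (∑ x, k x) = 1 := by
      rw [← h2]
      have hne : (((p ^ a : ℕ) : ℂ)) ≠ 0 := by
        exact_mod_cast (by omega : p ^ a ≠ 0)
      induction (Finset.univ : Finset (Σ i, (F i →+* ℂ))) using Finset.induction_on with
      | empty => simp
      | insert x s hx ih => rw [Finset.sum_insert hx, Finset.prod_insert hx, zpow_add₀ hne, ih]
    have h4 : ∑ x, k x = 0 := by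
      have h5 := congrArg (fun z : ℂ => ‖z‖) h3
      simp only [norm_zpow, norm_one] at h5
      rw [Complex.norm_natCast] at h5
      have h6 : (1 : ℝ) < ((p ^ a : ℕ) : ℝ) := by exact_mod_cast hp1
      exact (zpow_eq_one_iff_right₀ (by linarith) h6.ne').1 h5
    rw [← h4]
    exact Fintype.sum_equiv (embS j h) _ _ fun x => rfl
  -- nonnegative exponents
  obtain ⟨c, hc⟩ : ∃ c : ℕ, ∀ x, 0 ≤ kL x + c := by
    refine ⟨∑ x, (kL x).natAbs, fun x => ?_⟩
    have h1 : (kL x).natAbs ≤ ∑ x, (kL x).natAbs :=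
      Finset.single_le_sum (f := fun x => (kL x).natAbs) (fun _ _ => Nat.zero_le _)
        (Finset.mem_univ x)
    omega
  let N : (Σ i, (F i →+* L)) → ℕ := fun x => (kL x + c).toNat
  have hN : ∀ x, (N x : ℤ) = kL x + c := fun x => Int.toNat_of_nonneg (hc x)
  obtain ⟨e, he1, he2⟩ := balanced_prod (L := L) (π := π) hw (fun _ => c) (fun _ => rfl) _
    Finset.univ rfl (fun y _ => Finset.mem_univ _)
  have hNs : ∑ x, N x = 2 * e := by
    have h1 : ((∑ x, N x : ℕ) : ℤ) = ((∑ _x : Σ i, (F i →+* L), c : ℕ) : ℤ) := by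
      push_cast
      rw [Finset.sum_congr rfl fun x _ => hN x, Finset.sum_add_distrib, hsum, zero_add]
    have h2 : ∑ x, N x = ∑ _x : Σ i, (F i →+* L), c := by exact_mod_cast h1
    rw [h2, he1]
  have hNp : ∏ x, val π x ^ N x = ((p : L) ^ a) ^ e := by
    rw [← he2]
    have h1 : ∀ x, val π x ^ N x = (val π x) ^ kL x * val π x ^ c := by
      intro x
      rw [← zpow_natCast, hN, zpow_add₀ (hv x), zpow_natCast]
    rw [Finset.prod_congr rfl fun x _ => h1 x, Finset.prod_mul_distrib, hL, one_mul]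
  let E : (Σ x : (Σ i, (F i →+* L)), Fin (N x)) ≃ Fin e × Fin 2 := Fintype.equivOfCardEq (by
    rw [Fintype.card_sigma, Fintype.card_prod, Fintype.card_fin, Fintype.card_fin, mul_comm]
    simp only [Fintype.card_fin]
    exact hNs)
  let I : Fin e × Fin 2 → (Σ i, (F i →+* L)) := fun l => (E.symm l).1
  have hI : ∏ l, (val π (I l)) ^ 1 = ((p : L) ^ a) ^ (e * 1) := by
    rw [mul_one, ← hNp]
    simp only [pow_one]
    rw [← Fintype.prod_equiv E (fun y => val π y.1) (fun l => val π (I l)) (fun y => by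
      simp only [I, Equiv.symm_apply_apply]), Fintype.prod_sigma]
    refine Finset.prod_congr rfl fun x _ => ?_
    simp only
    rw [Finset.prod_const, Finset.card_univ, Fintype.card_fin]
  have hcardI : ∀ y, (Finset.univ.filter (fun l => I l = y)).card = N y := by
    intro y
    have h1 : (Finset.univ.filter (fun l => I l = y)) =
        ((Finset.univ : Finset (Fin (N y))).map
          ⟨fun b => E ⟨y, b⟩, fun b b' hb => by
            have := E.injective hb
            simpa using this⟩) := by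
      ext l
      simp only [Finset.mem_filter, Finset.mem_univ, true_and, Finset.mem_map,
        Function.Embedding.coeFn_mk]
      constructor
      · intro hl
        obtain ⟨⟨x, b⟩, rfl⟩ := E.surjective l
        simp only [I, Equiv.symm_apply_apply] at hl
        subst hl
        exact ⟨b, rfl⟩
      · rintro ⟨b, rfl⟩
        simp only [I, Equiv.symm_apply_apply]
    rw [h1, Finset.card_map, Finset.card_univ, Fintype.card_fin]
  intro i φ
  obtain ⟨x, hx⟩ := (embS j h).surjective ⟨i, φ⟩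
  have h1 := hneat e 1 one_pos I hI x
  have h2 : N x = N (bar x) := by
    have h3 := hcardI x
    have h4 := hcardI (bar x)
    rw [← h3, ← h4]
    convert h1
  have h5 : kL x = kL (bar x) := by
    have h6 := hN x
    have h7 := hN (bar x)
    rw [h2] at h6
    linarith
  have h6 : (⟨i, ComplexEmbedding.conjugate φ⟩ : Σ i, (F i →+* ℂ)) = embS j h (bar x) := by
    rw [embS_bar]
    rw [embS_apply] at hx
    cases hx
    rfl
  rw [h6, ← hx]
  exact h5

end Pool.Agent.K6.H79.TX
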